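import Pool.Agent.H27.CD.Events
import Pool.Graph.R_seed8.R966.CD.Attr

/-!
A level is good unless it is spoiled by some block.
-/

set_option autoImplicit false

namespace Pool.Agent.H27.CD

open Pool.Agent.R966.CD
open MeasureTheory ProbabilityTheory
open scoped NNReal ENNReal

/-- a discrete intermediate value theorem -/
theorem exists_step_up (u : ℕ → ℤ) (c : ℤ) : ∀ L : ℕ, u 0 ≤ c → c ≤ u L → u 0 < u L →
    ∃ i < L, u i ≤ c ∧ c ≤ u (i+1) := by
  intro L
  induction L with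
  | zero => intro _ _ h; exact absurd h (lt_irrefl _)
  | succ L ih =>
    intro h1 h2 h3
    by_cases h : u L ≤ c
    · exact ⟨L, by omega, h, h2⟩
    · push Not at h
      obtain ⟨i, hi, h4⟩ := ih h1 h.le (by omega)
      exact ⟨i, by omega, h4⟩

theorem exists_step (u : ℕ → ℤ) (c : ℤ) (L : ℕ) (h1 : min (u 0) (u L) ≤ c) (h2 : c ≤ max (u 0) (u L))
    (h3 : u 0 ≠ u L) : ∃ i < L, min (u i) (u (i+1)) ≤ c ∧ c ≤ max (u i) (u (i+1)) := by
  rcases lt_or_gt_of_ne h3 with h | h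
  · obtain ⟨i, hi, h4, h5⟩ := exists_step_up u c L (by omega) (by omega) h
    exact ⟨i, hi, by omega, by omega⟩
  · obtain ⟨i, hi, h4, h5⟩ := exists_step_up (fun i => - u i) (-c) L (by omega) (by omega) (by omega)
    exact ⟨i, hi, by omega, by omega⟩

namespace Pa

variable (P : Pa)

/-- good level of the walk -/
structure GG (n j : ℕ) (x : ℤ → E n) : Prop where
  ret : ∀ u : ℤ, |u| ≤ P.w 0 → ‖S x u‖ < 5 * P.r n j → |u| ≤ P.w j
  osc : ∀ u v : ℤ, |u| ≤ P.w j → |v| ≤ P.w j → P.r n j / 2 < ‖S x u - S x v‖ →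
    2^(P.Hk j) ≤ |u - v|
  chain : ∀ (L : ℕ) (u : ℕ → ℤ), (∀ i ≤ L, |u i| ≤ P.w j) →
    (∀ i < L, ‖S x (u (i+1)) - S x (u i)‖ < 5 * P.r n (j+1)) →
    (2:ℤ)^(P.HJ j + 2) ≤ |u L - u 0| → P.TT * P.nh ≤ L

theorem w_pos (i : ℕ) : 0 < P.w i := by unfold w; positivity

theorem loOK (i : ℕ) : LoOK (P.w i) := Or.inr ⟨_, rfl⟩

theorem w_anti {i j : ℕ} (h : i ≤ j) : P.w j ≤ P.w i := by
  unfold w
  apply Nat.pow_le_pow_right (by norm_num)
  have := Nat.mul_le_mul_left (2*P.β) h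
  omega

/-- the shell of a point -/
theorem exists_shell {j : ℕ} {a : ℕ} (h1 : P.w j < a) (h0 : a ≤ P.w 0) :
    ∃ i < j, P.w (i+1) < a ∧ a ≤ P.w i := by
  induction j with
  | zero => omega
  | succ j ih =>
    rcases Nat.lt_or_ge (P.w j) a with h | h
    · obtain ⟨i, hi, h2⟩ := ih h
      exact ⟨i, by omega, h2⟩
    · exact ⟨j, by omega, h1, h⟩

theorem anchor {n : ℕ} {x : ℤ → E n} {i H : ℕ} {ρ : ℝ} (hρ : 0 ≤ ρ) (c : ℕ)
    (hc : P.w (i+1) = c * 2^H) (h : x ∉ OE n (P.w (i+1)) (P.w i) H ρ) (u : ℤ)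
    (h1 : P.w (i+1) ≤ |u|) (h2 : |u| ≤ P.w i) :
    ∃ p ∈ P.anc i H, ‖S x u - S x p‖ ≤ ρ ∧ |u - p| ≤ 2^H := by
  obtain ⟨σ, hσ, hu⟩ := Par.pm_of x u
  have h1' : P.w (i+1) ≤ u.natAbs := by rw [Int.abs_eq_natAbs] at h1; exact_mod_cast h1
  have h2' : u.natAbs ≤ P.w i := by rw [Int.abs_eq_natAbs] at h2; exact_mod_cast h2
  have hpos : 0 < 2^H := by positivity
  have h3 := osc_cell hρ (P.loOK (i+1)) (Par.small_pm h σ) u.natAbs h1' h2'
  have h4 : P.w (i+1) ≤ u.natAbs / 2^H * 2^H := by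
    rw [hc]
    apply Nat.mul_le_mul_right
    rw [Nat.le_div_iff_mul_le hpos, ← hc]
    exact h1'
  rw [max_eq_left h4] at h3
  have h5 := Nat.div_mul_le_self u.natAbs (2^H)
  have h6 := Nat.lt_div_mul_add (a := u.natAbs) hpos
  refine ⟨if σ then ((u.natAbs / 2^H * 2^H : ℕ) : ℤ) else -((u.natAbs / 2^H * 2^H : ℕ) : ℤ), ?_, ?_, ?_⟩
  · rw [P.mem_anc]
    refine ⟨u.natAbs / 2^H, h4, h5.trans h2', ?_⟩
    cases σ
    · right; simp
    · left; simp
  · have e : S x (if σ then ((u.natAbs / 2^H * 2^H : ℕ) : ℤ) else -((u.natAbs / 2^H * 2^H : ℕ) : ℤ)) =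
        Par.pm x σ (u.natAbs / 2^H * 2^H) := by
      unfold Par.pm
      cases σ <;> simp
    rw [hσ, e]
    exact h3
  · have e : ((2^H : ℕ) : ℤ) = (2:ℤ)^H := by push_cast; rfl
    rw [← e]
    generalize hq : u.natAbs / 2^H * 2^H = q at h5 h6 ⊢
    cases σ
    · rw [if_neg (by simp)] at hu ⊢
      rw [abs_le]
      constructor <;> omega
    · rw [if_pos rfl] at hu ⊢
      rw [abs_le]
      constructor <;> omega

theorem ret_of {n j : ℕ} (hn : 1 ≤ n) (hj : j < P.k) {x : ℤ → E n}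
    (h : ∀ i < j, x ∉ P.Fdown n i (j - i)) (u : ℤ) (hu : |u| ≤ P.w 0)
    (hs : ‖S x u‖ < 5 * P.r n j) : |u| ≤ P.w j := by
  by_contra hcon
  push Not at hcon
  have e1 : |u| = (u.natAbs : ℤ) := Int.abs_eq_natAbs u
  rw [e1] at hcon hu
  obtain ⟨i, hi, h1, h2⟩ := P.exists_shell (j := j) (a := u.natAbs) (by exact_mod_cast hcon)
    (by exact_mod_cast hu)
  have h3 := h i hi
  unfold Fdown SBd at h3
  rw [Set.mem_union, not_or] at h3
  obtain ⟨h4, h5⟩ := h3
  have hij : i + (j - i) = j := by omega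
  rw [hij] at h4 h5
  have hr := P.r_pos hn j
  have hexp := P.exp_le (show j ≤ P.k + 1 by omega)
  have hmul : 2*P.β*(i+1) ≤ 2*P.β*j := Nat.mul_le_mul_left _ (by omega)
  obtain ⟨p, hp, h6, -⟩ := P.anchor hr.le (2^(P.N + P.b - 2*P.β*(i+1) - P.Hd i (j-i))) (by
    rw [← pow_add]
    unfold w Hd
    rw [hij]
    congr 1
    omega) h4 u (by rw [e1]; exact_mod_cast h1.le) (by rw [e1]; exact_mod_cast h2)
  simp only [Set.mem_iUnion, not_exists] at h5
  have h7 := h5 p hp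
  simp only [Set.mem_ofPred_eq, S_zero, sub_zero, not_le] at h7
  have h8 : ‖S x p‖ ≤ ‖S x u‖ + ‖S x u - S x p‖ := by
    have : S x p = S x u - (S x u - S x p) := by abel
    calc ‖S x p‖ = ‖S x u - (S x u - S x p)‖ := by rw [← this]
      _ ≤ _ := norm_sub_le _ _
  linarith

/-- the cells close to the centre -/
theorem inner {n j : ℕ} (hn : 1 ≤ n) {x : ℤ → E n}
    (hup : ∀ i, j < i → i < P.k → x ∉ P.Fup n i (i - j)) (hc : x ∉ P.Fcore n (P.k - j)) :
    ∀ m i, i + m = P.k → j + 1 ≤ i → ∀ u : ℕ, u ≤ P.w i → ∀ σ,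
      ‖Par.pm x σ u‖ ≤ 2 * P.X * P.r n (j+1) * (1/2)^(i-j-1) := by
  have hr := P.r_pos hn (j+1)
  have hX := P.X_pos
  have hrad : ∀ i, j + 1 ≤ i → P.X * P.r n i * ((2:ℝ)^P.β / 2)^(i-j-1) =
      P.X * P.r n (j+1) * (1/2)^(i-j-1) := by
    intro i hi
    have e1 : i = (j+1) + (i-j-1) := by omega
    have e2 := P.r_shift n (j+1) (i-j-1)
    rw [← e1] at e2
    rw [e2, div_pow, ← pow_mul]
    field_simp
    rw [← mul_pow]
    norm_num
  intro m
  induction m with
  | zero =>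
    intro i hi hji u hu σ
    have hik : i = P.k := by omega
    subst hik
    unfold Fcore at hc
    have hr2 := P.r_pos hn P.k
    have h3 := osc_cell (by positivity) (Or.inl rfl) (Par.small_pm hc σ) u (Nat.zero_le _) hu
    have hexp := P.exp_le (show P.k ≤ P.k + 1 by omega)
    have h4 : u / 2^(P.N + P.b + 1 - 2*P.β*P.k) = 0 := by
      apply Nat.div_eq_of_lt
      refine lt_of_le_of_lt hu ?_
      unfold w
      exact Nat.pow_lt_pow_right (by norm_num) (by omega)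
    rw [h4, zero_mul, max_self, Par.pm_zero, sub_zero, hrad P.k hji] at h3
    have : (0:ℝ) ≤ P.X * P.r n (j+1) * (1/2)^(P.k-j-1) := by positivity
    linarith
  | succ m ih =>
    intro i hi hji u hu σ
    have h1 := ih (i+1) (by omega) (by omega)
    rcases Nat.lt_or_ge (P.w (i+1)) u with h2 | h2
    · have h5 := hup i (by omega) (by omega)
      unfold Fup at h5
      have hr2 := P.r_pos hn i
      have h3 := osc_cell (by positivity) (P.loOK (i+1)) (Par.small_pm h5 σ) u h2.le hu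
      have hexp := P.exp_le (show i ≤ P.k + 1 by omega)
      have h4 : u / 2^(P.N + P.b + 1 - 2*P.β*i) = 0 := by
        apply Nat.div_eq_of_lt
        refine lt_of_le_of_lt hu ?_
        unfold w
        exact Nat.pow_lt_pow_right (by norm_num) (by omega)
      rw [h4, zero_mul, max_eq_right (Nat.zero_le _), hrad i hji] at h3
      have h6 := h1 (P.w (i+1)) le_rfl σ
      have e1 : i + 1 - j - 1 = (i - j - 1) + 1 := by omega
      rw [e1, pow_succ] at h6
      have h8 : ‖Par.pm x σ u‖ ≤ ‖Par.pm x σ u - Par.pm x σ (P.w (i+1))‖ + ‖Par.pm x σ (P.w (i+1))‖ := by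
        have := norm_add_le (Par.pm x σ u - Par.pm x σ (P.w (i+1))) (Par.pm x σ (P.w (i+1)))
        rwa [sub_add_cancel] at this
      linarith
    · refine (h1 u h2 σ).trans ?_
      apply mul_le_mul_of_nonneg_left _ (by positivity)
      exact pow_le_pow_of_le_one (by norm_num) (by norm_num) (by omega)

theorem inner' {n j : ℕ} (hn : 1 ≤ n) (hj : j < P.k) {x : ℤ → E n}
    (hup : ∀ i, j < i → i < P.k → x ∉ P.Fup n i (i - j)) (hc : x ∉ P.Fcore n (P.k - j))
    (u : ℤ) (hu : |u| ≤ P.w (j+1)) : ‖S x u‖ ≤ 2 * P.X * P.r n (j+1) := by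
  obtain ⟨σ, h1, -⟩ := Par.pm_of x u
  rw [h1]
  have h2 := P.inner hn hup hc (P.k - (j+1)) (j+1) (by omega) le_rfl u.natAbs (by
    rw [Int.abs_eq_natAbs] at hu; exact_mod_cast hu) σ
  have e : j + 1 - j - 1 = 0 := by omega
  rwa [e, pow_zero, mul_one] at h2

theorem hd_dvd {j : ℕ} (hj : j < P.k) :
    P.w (j+1) = 2^(P.N + P.b - 2*P.β*(j+1) - P.Hd j 1) * 2^(P.Hd j 1) := by
  have hexp := P.exp_le (show j + 1 ≤ P.k + 1 by omega)
  rw [← pow_add]
  unfold w Hd
  congr 1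
  omega

theorem six_le_X : 6 ≤ P.X := by
  unfold X
  calc (6:ℝ) ≤ 2^6 := by norm_num
    _ ≤ _ := pow_le_pow_right₀ (by norm_num) (by omega)

theorem w_succ (i : ℕ) : P.w (i+1) = 2^(P.HL i) := rfl

/-- **a cut time is passed by short steps only** -/
theorem cut_near {n j : ℕ} (hn : 1 ≤ n) (hj : j < P.k) {x : ℤ → E n} (hown : x ∉ P.Fown n j)
    (hup : ∀ i, j < i → i < P.k → x ∉ P.Fup n i (i - j)) (hc : x ∉ P.Fcore n (P.k - j))
    {m : ℤ} (hm : m ≠ 0 ∧ m ≠ -1) {r t : ℕ} (hr' : r < P.TT) (ht : t < 2 * P.nh)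
    (hcut : x ∉ P.NC n j (P.pt j m r t)) (u v : ℤ) (hu : |u| ≤ P.w j) (hv : |v| ≤ P.w j)
    (huc : u ≤ P.pt j m r t) (hcv : P.pt j m r t ≤ v) (hs : ‖S x v - S x u‖ < 5 * P.r n (j+1)) :
    v - u < 2^(P.HG j) := by
  have hr := P.r_pos hn (j+1)
  have hX := P.six_le_X
  have hβ := P.hβ
  obtain ⟨bh1, bh2, bh3⟩ := P.bh
  obtain ⟨e, e1, e2, e3, e4, e5, e6, e7, e8, e9⟩ := P.scales (show j + 1 ≤ P.k by omega)
  obtain ⟨hr1, hr2⟩ := P.pt_range (show j + 1 ≤ P.k by omega) m hr' ht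
  unfold Fown at hown
  rw [Set.mem_union, Set.mem_union, Set.mem_union, Set.mem_union, not_or, not_or, not_or, not_or] at hown
  obtain ⟨⟨⟨-, h1⟩, h2, h3⟩, -⟩ := hown
  have h2' : ∀ p q, p ∈ P.anc j (P.Hd j 1) → q ∈ P.anc j (P.Hd j 1) → p + P.w (j+1) ≤ q →
      7 * P.r n (j+1) < ‖S x q - S x p‖ := by
    intro p q hp hq hpq
    unfold SBp at h2
    simp only [Set.mem_iUnion, not_exists] at h2
    have := h2 (p, q) (Finset.mem_filter.mpr ⟨Finset.mem_product.mpr ⟨hp, hq⟩, hpq⟩)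
    simpa only [Set.mem_ofPred_eq, not_le] using this
  have h3' : ∀ p, p ∈ P.anc j (P.Hd j 1) → (2:ℤ)^(P.HJ j - 1) ≤ |p| →
      3 * P.X * P.r n (j+1) < ‖S x p‖ := by
    intro p hp hpp
    unfold SBc at h3
    simp only [Set.mem_iUnion, not_exists] at h3
    have := h3 p (Finset.mem_filter.mpr ⟨hp, by push_cast; exact hpp⟩)
    simpa only [Set.mem_ofPred_eq, not_le, S_zero, sub_zero] using this
  -- the scales
  obtain ⟨h, hh⟩ : ∃ h : ℤ, h = 2^(P.Hd j 1) := ⟨_, rfl⟩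
  have hh0 : 0 < h := by rw [hh]; positivity
  obtain ⟨J, hJ⟩ : ∃ J : ℤ, J = 2^(P.HJ j) := ⟨_, rfl⟩
  obtain ⟨G, hG⟩ : ∃ G : ℤ, G = 2^(P.HG j) := ⟨_, rfl⟩
  obtain ⟨w1, hw1⟩ : ∃ w1 : ℤ, w1 = (P.w (j+1) : ℤ) := ⟨_, rfl⟩
  have hG0 : 0 < G := by rw [hG]; positivity
  have hw1' : w1 = 2^(P.HL j) := by rw [hw1, P.w_succ]; push_cast; rfl
  have hJ1 : 2 * (2:ℤ)^(P.HJ j - 1) = J := by
    rw [hJ, ← pow_succ']; congr 1; omega
  have s1 : 2 * h ≤ J := by
    rw [hh, hJ, ← pow_succ', e1, e5]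
    exact pow_le_pow_right₀ (by norm_num) (by omega)
  have s2 : 2 * w1 ≤ J := by
    rw [hw1', hJ, ← pow_succ', e4, e5]
    exact pow_le_pow_right₀ (by norm_num) (by omega)
  have s3 : w1 = 2^(P.b + 12 + 2*P.f) * h := by
    rw [hw1', hh, e1, e4, ← pow_add]
    congr 1
    omega
  have s4 : G = 2 * 2^(P.Hc j) := by
    rw [hG, e2, e3, ← pow_succ']
    congr 1
    omega
  have s5 : 2 * h ≤ 2^(P.Hc j) := by
    rw [hh, ← pow_succ', e1, e2]
    exact pow_le_pow_right₀ (by norm_num) (by omega)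
  have hcdvd : h ∣ P.pt j m r t := by
    unfold pt
    rw [hh]
    refine dvd_add (dvd_add ?_ ?_) ?_
    · exact Dvd.dvd.mul_left (pow_dvd_pow 2 (by omega)) _
    · exact Dvd.dvd.mul_left (pow_dvd_pow 2 (by omega)) _
    · exact Dvd.dvd.mul_left (pow_dvd_pow 2 (by omega)) _
  obtain ⟨c, hc'⟩ : ∃ c, c = P.pt j m r t := ⟨_, rfl⟩
  rw [← hc'] at hr1 hr2 hcut huc hcv hcdvd
  rw [← hJ] at hr1 hr2
  rw [← hG] at hr2 ⊢
  -- the position of the cut time
  have hpos : 0 < m ∧ J ≤ c ∨ m + 1 < 0 ∧ c ≤ -J := by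
    rcases le_or_gt 1 m with hm1 | hm1
    · left
      have : 1 * J ≤ m * J := mul_le_mul_of_nonneg_right hm1 (by omega)
      exact ⟨hm1, by linarith⟩
    · right
      have h5 : m + 1 ≤ -1 := by omega
      have : (m+1) * J ≤ (-1) * J := mul_le_mul_of_nonneg_right h5 (by omega)
      exact ⟨by omega, by linarith⟩
  -- a point of the shell and a point of the core
  have hmix : ∀ a d : ℤ, |a| ≤ w1 → J ≤ |d| → |d| ≤ P.w j → 5 * P.r n (j+1) ≤ ‖S x d - S x a‖ := by
    intro a d ha hd1 hd2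
    obtain ⟨p, hp, h6, h7⟩ := P.anchor hr.le _ (P.hd_dvd hj) h1 d (by rw [← hw1]; omega) hd2
    have h8 := P.inner' hn hj hup hc a (by rw [← hw1]; exact ha)
    rw [← hh] at h7
    have h9 : (2:ℤ)^(P.HJ j - 1) ≤ |p| := by
      have t2 : |d| ≤ |d - p| + |p| := by
        have := abs_add_le (d - p) p
        rwa [sub_add_cancel] at this
      omega
    have h10 := h3' p hp h9
    have h11 : ‖S x p‖ ≤ ‖S x d - S x a‖ + ‖S x a‖ + ‖S x d - S x p‖ := by
      have e : S x p = (S x d - S x a) + S x a - (S x d - S x p) := by abel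
      calc ‖S x p‖ = ‖(S x d - S x a) + S x a - (S x d - S x p)‖ := by rw [← e]
        _ ≤ ‖(S x d - S x a) + S x a‖ + ‖S x d - S x p‖ := norm_sub_le _ _
        _ ≤ _ := by have := norm_add_le (S x d - S x a) (S x a); linarith
    have h12 : 6 * P.r n (j+1) ≤ P.X * P.r n (j+1) := mul_le_mul_of_nonneg_right hX hr.le
    nlinarith
  rcases le_or_gt |u| w1 with cu | cu
  · exfalso
    have hv1 : J ≤ |v| := by
      rw [abs_le] at cu
      rcases hpos with h5 | h5
      · exact le_trans (by omega) (le_abs_self v)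
      · omega
    have := hmix u v cu hv1 hv
    linarith
  rcases le_or_gt |v| w1 with cv | cv
  · exfalso
    have hu1 : J ≤ |u| := by
      rw [abs_le] at cv
      rcases hpos with h5 | h5
      · omega
      · exact le_trans (by omega) (neg_le_abs u)
    have := hmix v u cv hu1 hu
    rw [norm_sub_rev] at this
    linarith
  -- both in the shell
  obtain ⟨p, hp, h6, h7⟩ := P.anchor hr.le _ (P.hd_dvd hj) h1 u (by rw [← hw1]; exact cu.le) hu
  obtain ⟨q, hq, h8, h9⟩ := P.anchor hr.le _ (P.hd_dvd hj) h1 v (by rw [← hw1]; exact cv.le) hv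
  rw [← hh] at h7 h9
  have h11 : ‖S x q - S x p‖ ≤ ‖S x v - S x u‖ + ‖S x u - S x p‖ + ‖S x v - S x q‖ := by
    have e : S x q - S x p = (S x v - S x u) + (S x u - S x p) - (S x v - S x q) := by abel
    calc ‖S x q - S x p‖ = ‖(S x v - S x u) + (S x u - S x p) - (S x v - S x q)‖ := by rw [← e]
      _ ≤ ‖(S x v - S x u) + (S x u - S x p)‖ + ‖S x v - S x q‖ := norm_sub_le _ _
      _ ≤ _ := by have := norm_add_le (S x v - S x u) (S x u - S x p); linarith
  have h12 : ‖S x q - S x p‖ < 7 * P.r n (j+1) := by linarith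
  by_contra hcon
  push Not at hcon
  have hqp : q < p + w1 := by
    by_contra hcc
    push Not at hcc
    have := h2' p q hp hq (by rw [← hw1]; exact hcc)
    linarith
  rw [abs_le] at h7 h9
  obtain ⟨p', hp'⟩ : h ∣ p := by
    have := P.anc_dvd hp
    rw [hh]
    exact_mod_cast this
  obtain ⟨q', hq'⟩ : h ∣ q := by
    have := P.anc_dvd hq
    rw [hh]
    exact_mod_cast this
  obtain ⟨c', hcc'⟩ := hcdvd
  have ha0 : 0 ≤ c' - p' + 1 := by
    by_contra hneg
    have h13 : c' + 2 ≤ p' := by omega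
    have h14 : h * (c' + 2) ≤ h * p' := mul_le_mul_of_nonneg_left h13 hh0.le
    rw [← hp', mul_add, ← hcc'] at h14
    linarith [h7.1]
  have hb0 : 0 ≤ q' - c' + 1 := by
    by_contra hneg
    have h13 : q' + 2 ≤ c' := by omega
    have h14 : h * (q' + 2) ≤ h * c' := mul_le_mul_of_nonneg_left h13 hh0.le
    rw [← hcc', mul_add, ← hq'] at h14
    linarith [h9.2]
  have h15 : q' - p' < 2^(P.b + 12 + 2*P.f) := by
    have h16 : h * (q' - p') < h * 2^(P.b + 12 + 2*P.f) := by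
      have e : h * (q' - p') = q - p := by rw [hp', hq']; ring
      rw [e, mul_comm h, ← s3]
      omega
    exact lt_of_mul_lt_mul_left h16 hh0.le
  have hBB : (P.BB : ℤ) = 2 * 2^(P.b + 12 + 2*P.f) := by
    unfold BB
    push_cast
    rw [← pow_succ']
    congr 1
    omega
  have hbig : (4:ℤ) ≤ 2^(P.b + 12 + 2*P.f) := by
    calc (4:ℤ) = 2^2 := by norm_num
      _ ≤ _ := pow_le_pow_right₀ (by norm_num) (by omega)
  apply hcut
  unfold NC
  simp only [Set.mem_iUnion]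
  have ea : P.pa j c (c' - p' + 1).toNat = p := by
    unfold pa
    rw [Int.toNat_of_nonneg ha0, ← hh, hp', hcc']
    ring
  have eb : P.pb j c (q' - c' + 1).toNat = q := by
    unfold pb
    rw [Int.toNat_of_nonneg hb0, ← hh, hq', hcc']
    ring
  refine ⟨((c' - p' + 1).toNat, (q' - c' + 1).toNat), ?_, ?_⟩
  · rw [Finset.mem_filter, Finset.mem_product, Finset.mem_range, Finset.mem_range]
    simp only
    rw [ea, eb]
    refine ⟨⟨?_, ?_⟩, ?_, ?_, ?_⟩
    · have : ((c' - p' + 1).toNat : ℤ) < P.BB := by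
        rw [Int.toNat_of_nonneg ha0, hBB]
        omega
      exact_mod_cast this
    · have : ((q' - c' + 1).toNat : ℤ) < P.BB := by
        rw [Int.toNat_of_nonneg hb0, hBB]
        omega
      exact_mod_cast this
    · omega
    · have := (P.anc_abs hp).2
      rw [abs_le] at this
      exact this.1
    · have := (P.anc_abs hq).2
      rw [abs_le] at this
      exact this.2
  · simp only [Set.mem_ofPred_eq]
    rw [ea, eb]
    exact h12.le

theorem pt_inj {j : ℕ} (hj : j < P.k) (m : ℤ) {r t r' t' : ℕ} (hr : r < P.TT) (hr' : r' < P.TT)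
    (h : |P.pt j m r t - P.pt j m r' t'| < 2^(P.HG j)) : r = r' ∧ t = t' := by
  have hβ := P.hβ
  obtain ⟨bh1, bh2, bh3⟩ := P.bh
  obtain ⟨e, e1, e2, e3, e4, e5, e6, e7, e8, e9⟩ := P.scales (show j + 1 ≤ P.k by omega)
  have hG0 : (0:ℤ) < 2^(P.HG j) := by positivity
  have h1 : (2:ℤ)^(P.HL j + 2) = P.TT * 2^(P.HG j) := by
    unfold TT
    push_cast
    rw [← pow_add]
    congr 1
    omega
  have h2 : P.pt j m r t - P.pt j m r' t' = (((r + t * P.TT : ℕ) : ℤ) - ((r' + t' * P.TT : ℕ) : ℤ)) * 2^(P.HG j) := by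
    unfold pt
    rw [h1]
    push_cast
    ring
  rw [h2, abs_mul, abs_of_pos hG0] at h
  have h3 : |((r + t * P.TT : ℕ) : ℤ) - ((r' + t' * P.TT : ℕ) : ℤ)| < 1 := by
    by_contra hcon
    push Not at hcon
    have := mul_le_mul_of_nonneg_right hcon hG0.le
    linarith
  have h4 : r + t * P.TT = r' + t' * P.TT := by
    rw [abs_lt] at h3
    omega
  have hT : 0 < P.TT := by unfold TT; positivity
  have h5 : (r + t * P.TT) / P.TT = t := by
    rw [Nat.add_mul_div_right _ _ hT, Nat.div_eq_of_lt hr, zero_add]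
  have h6 : (r' + t' * P.TT) / P.TT = t' := by
    rw [Nat.add_mul_div_right _ _ hT, Nat.div_eq_of_lt hr', zero_add]
  have h7 : t = t' := by rw [← h5, ← h6, h4]
  subst h7
  exact ⟨by omega, rfl⟩

/-- **long chains** -/
theorem chain_of {n j : ℕ} (hn : 1 ≤ n) (hj : j < P.k) {x : ℤ → E n} (hown : x ∉ P.Fown n j)
    (hup : ∀ i, j < i → i < P.k → x ∉ P.Fup n i (i - j)) (hc : x ∉ P.Fcore n (P.k - j))
    (L : ℕ) (u : ℕ → ℤ) (hu : ∀ i ≤ L, |u i| ≤ P.w j)
    (hs : ∀ i < L, ‖S x (u (i+1)) - S x (u i)‖ < 5 * P.r n (j+1))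
    (hd : (2:ℤ)^(P.HJ j + 2) ≤ |u L - u 0|) : P.TT * P.nh ≤ L := by
  classical
  have hβ := P.hβ
  obtain ⟨bh1, bh2, bh3⟩ := P.bh
  obtain ⟨e, e1, e2, e3, e4, e5, e6, e7, e8, e9⟩ := P.scales (show j + 1 ≤ P.k by omega)
  obtain ⟨J, hJ⟩ : ∃ J : ℤ, J = 2^(P.HJ j) := ⟨_, rfl⟩
  have hJ0 : 0 < J := by rw [hJ]; positivity
  have hJ4 : (2:ℤ)^(P.HJ j + 2) = 4 * J := by rw [hJ, pow_add]; ring
  rw [hJ4] at hd
  obtain ⟨a, ha⟩ : ∃ a, a = min (u 0) (u L) := ⟨_, rfl⟩
  obtain ⟨b, hb⟩ : ∃ b, b = max (u 0) (u L) := ⟨_, rfl⟩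
  have hab : a + 4 * J ≤ b := by
    rcases le_total (u 0) (u L) with h | h
    · rw [abs_of_nonneg (by omega)] at hd
      rw [ha, hb, min_eq_left h, max_eq_right h]
      omega
    · rw [abs_of_nonpos (by omega)] at hd
      rw [ha, hb, min_eq_right h, max_eq_left h]
      omega
  have hwJ : (P.w j : ℤ) = P.MM * J := by
    unfold w MM
    rw [hJ]
    push_cast
    rw [← pow_add]
    congr 1
    omega
  have hu0 := hu 0 (Nat.zero_le _)
  have huL := hu L le_rfl
  rw [abs_le] at hu0 huL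
  have haw : -(P.w j : ℤ) ≤ a := by rw [ha]; omega
  have hbw : b ≤ P.w j := by rw [hb]; omega
  -- the interval
  obtain ⟨m, hm, hma, hmb⟩ : ∃ m : ℤ, (m ≠ 0 ∧ m ≠ -1) ∧ a ≤ m * J ∧ (m+1) * J ≤ b := by
    obtain ⟨m0, hm0⟩ : ∃ m0, m0 = (a + J - 1) / J := ⟨_, rfl⟩
    have q1 := Int.mul_ediv_add_emod (a + J - 1) J
    have q2 := Int.emod_nonneg (a + J - 1) hJ0.ne'
    have q3 := Int.emod_lt_of_pos (a + J - 1) hJ0
    rw [← hm0] at q1
    have q4 : a ≤ m0 * J := by nlinarith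
    have q5 : m0 * J ≤ a + J - 1 := by nlinarith
    by_cases c0 : m0 = 0
    · refine ⟨1, ⟨by norm_num, by norm_num⟩, ?_, ?_⟩
      · rw [c0] at q4; nlinarith
      · rw [c0] at q5; nlinarith
    · by_cases c1 : m0 = -1
      · refine ⟨1, ⟨by norm_num, by norm_num⟩, ?_, ?_⟩
        · rw [c1] at q4; nlinarith
        · rw [c1] at q4 q5; nlinarith
      · exact ⟨m0, ⟨c0, c1⟩, q4, by nlinarith⟩
  have hmMs : m ∈ P.Ms := by
    unfold Ms
    rw [Finset.mem_filter, Finset.mem_Ico]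
    refine ⟨⟨?_, ?_⟩, hm⟩
    · by_contra hcon
      push Not at hcon
      have : (m + 1) * J ≤ -(P.MM : ℤ) * J := mul_le_mul_of_nonneg_right (by omega) hJ0.le
      nlinarith
    · by_contra hcon
      push Not at hcon
      have : (P.MM : ℤ) * J ≤ m * J := mul_le_mul_of_nonneg_right hcon hJ0.le
      nlinarith
  -- many cut times
  have hCUT : ∀ r < P.TT, x ∉ P.CL n j m r := by
    intro r hr hmem
    apply hown
    unfold Fown
    rw [Set.mem_union]
    right
    unfold CUT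
    simp only [Set.mem_iUnion]
    exact ⟨(m, r), Finset.mem_product.mpr ⟨hmMs, Finset.mem_range.mpr hr⟩, hmem⟩
  have hmany : ∀ r < P.TT, P.nh ≤ ((Finset.range (2 * P.nh)).filter fun t => x ∉ P.NC n j (P.pt j m r t)).card := by
    intro r hr
    by_contra hcon
    push Not at hcon
    have h1 := Finset.card_filter_add_card_filter_not (s := Finset.range (2 * P.nh))
      (fun t => x ∉ P.NC n j (P.pt j m r t))
    rw [Finset.card_range] at h1
    obtain ⟨T, hT1, hT2⟩ := Finset.exists_subset_card_eq (s := (Finset.range (2 * P.nh)).filter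
      fun t => ¬ x ∉ P.NC n j (P.pt j m r t)) (n := P.nh) (by omega)
    apply hCUT r hr
    unfold CL
    simp only [Set.mem_iUnion, Set.mem_iInter]
    refine ⟨T, Finset.mem_powersetCard.mpr ⟨hT1.trans (Finset.filter_subset _ _), hT2⟩, ?_⟩
    intro t ht
    have := (Finset.mem_filter.mp (hT1 ht)).2
    exact not_not.mp this
  obtain ⟨Gs, hGs⟩ : ∃ Gs : Finset (Σ _ : ℕ, ℕ), Gs = (Finset.range P.TT).sigma fun r =>
    (Finset.range (2 * P.nh)).filter fun t => x ∉ P.NC n j (P.pt j m r t) := ⟨_, rfl⟩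
  have hcard : P.TT * P.nh ≤ Gs.card := by
    rw [hGs, Finset.card_sigma]
    calc P.TT * P.nh = ∑ r ∈ Finset.range P.TT, P.nh := by rw [Finset.sum_const, Finset.card_range, smul_eq_mul]
      _ ≤ _ := Finset.sum_le_sum fun r hr => hmany r (Finset.mem_range.mp hr)
  refine hcard.trans ?_
  have hne : u 0 ≠ u L := by
    intro h
    rw [h, sub_self, abs_zero] at hd
    omega
  have hstep : ∀ g ∈ Gs, ∃ i < L, min (u i) (u (i+1)) ≤ P.pt j m g.1 g.2 ∧
      P.pt j m g.1 g.2 ≤ max (u i) (u (i+1)) := by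
    intro g hg
    rw [hGs, Finset.mem_sigma, Finset.mem_range, Finset.mem_filter, Finset.mem_range] at hg
    obtain ⟨hr1, hr2⟩ := P.pt_range (show j + 1 ≤ P.k by omega) m hg.1 hg.2.1
    rw [← hJ] at hr1 hr2
    have hG0 : (0:ℤ) < 2^(P.HG j) := by positivity
    exact exists_step u _ L (by rw [← ha]; linarith) (by rw [← hb]; linarith) hne
  choose! ix hix1 hix2 hix3 using hstep
  have hmaps : ∀ g ∈ Gs, ix g ∈ Finset.range L := fun g hg => Finset.mem_range.mpr (hix1 g hg)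
  have hinj : ∀ g ∈ Gs, ∀ g' ∈ Gs, ix g = ix g' → g = g' := by
    intro g hg g' hg' heq
    have a1 := hix2 g hg
    have a2 := hix3 g hg
    have b1 := hix2 g' hg'
    have b2 := hix3 g' hg'
    have hi := hix1 g hg
    rw [← heq] at b1 b2
    have hgm := hg
    have hgm' := hg'
    rw [hGs, Finset.mem_sigma, Finset.mem_range, Finset.mem_filter, Finset.mem_range] at hgm hgm'
    obtain ⟨i, hi'⟩ : ∃ i, i = ix g := ⟨_, rfl⟩
    rw [← hi'] at a1 a2 b1 b2 hi
    have hlen : max (u i) (u (i+1)) - min (u i) (u (i+1)) < 2^(P.HG j) := by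
      have hui := hu i (by omega)
      have hui1 := hu (i+1) (by omega)
      have hsi := hs i hi
      rcases le_total (u i) (u (i+1)) with h | h
      · rw [min_eq_left h, max_eq_right h]
        rw [min_eq_left h] at a1
        rw [max_eq_right h] at a2
        exact P.cut_near hn hj hown hup hc hm hgm.1 hgm.2.1 hgm.2.2 _ _ hui hui1 a1 a2 hsi
      · rw [min_eq_right h, max_eq_left h]
        rw [min_eq_right h] at a1
        rw [max_eq_left h] at a2
        rw [norm_sub_rev] at hsi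
        exact P.cut_near hn hj hown hup hc hm hgm.1 hgm.2.1 hgm.2.2 _ _ hui1 hui a1 a2 hsi
    have h1 : |P.pt j m g.1 g.2 - P.pt j m g'.1 g'.2| < 2^(P.HG j) := by
      rw [abs_lt]
      constructor <;> linarith
    obtain ⟨h2, h3⟩ := P.pt_inj hj m hgm.1 hgm'.1 h1
    rcases g with ⟨g1, g2⟩
    rcases g' with ⟨g1', g2'⟩
    simp only at h2 h3
    subst h2 h3
    rfl
  have := Finset.card_le_card_of_injOn ix (fun g hg => hmaps g hg)
    (fun g hg g' hg' h => hinj g hg g' hg' h)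
  rwa [Finset.card_range] at this

theorem osc_of {n j : ℕ} (hn : 1 ≤ n) (hj : j < P.k) {x : ℤ → E n} (hown : x ∉ P.Fown n j)
    (hup : ∀ i, j < i → i < P.k → x ∉ P.Fup n i (i - j)) (hc : x ∉ P.Fcore n (P.k - j))
    (u v : ℤ) (hu : |u| ≤ P.w j) (hv : |v| ≤ P.w j) (hs : P.r n j / 2 < ‖S x u - S x v‖) :
    2^(P.Hk j) ≤ |u - v| := by
  by_contra hcon
  push Not at hcon
  have hr := P.r_pos hn (j+1)
  have hr0 := P.r_pos hn j
  have hexp := P.exp_le (show j + 1 ≤ P.k + 1 by omega)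
  have hg := P.hg
  unfold Fown at hown
  rw [Set.mem_union, Set.mem_union, Set.mem_union, Set.mem_union, not_or, not_or, not_or, not_or] at hown
  obtain ⟨⟨⟨h1, -⟩, -, -⟩, -⟩ := hown
  have hH1 : 1 ≤ P.Hk j := by
    unfold Hk
    have := P.exp_le (show j ≤ P.k + 1 by omega)
    omega
  have hratio : P.X * P.r n (j+1) * 2^6 ≤ P.r n j := by
    rw [P.r_shift n j 1, mul_one]
    have h5 : P.X * 2^6 ≤ 2^P.β := by
      unfold X
      rw [← pow_add]
      apply pow_le_pow_right₀ (by norm_num)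
      obtain ⟨bh1, bh2, bh3⟩ := P.bh
      omega
    have h6 : (0:ℝ) < 2^P.β := by positivity
    have e : P.X * (P.r n j / 2^P.β) * 2^6 = (P.X * 2^6) * P.r n j / 2^P.β := by ring
    rw [e, div_le_iff₀ h6, mul_comm (P.r n j)]
    exact mul_le_mul_of_nonneg_right h5 hr0.le
  -- points close to the edge of the core
  have hedge : ∀ (σ : Bool) (a : ℕ), a ≤ P.w j → a ≤ P.w (j+1) + 2^(P.Hk j) →
      ‖Par.pm x σ a‖ ≤ 3 * (P.r n j / 32) + 2 * P.X * P.r n (j+1) := by
    intro σ a ha1 ha2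
    rcases Nat.lt_or_ge (P.w (j+1)) a with h2 | h2
    · have h3 := near (by positivity) (P.loOK (j+1)) hH1 (Par.small_pm h1 σ) (P.w (j+1)) a le_rfl h2.le
        ha1 ha2
      have h4 := P.inner hn hup hc (P.k - (j+1)) (j+1) (by omega) le_rfl (P.w (j+1)) le_rfl σ
      have e : j + 1 - j - 1 = 0 := by omega
      rw [e, pow_zero, mul_one] at h4
      have h8 : ‖Par.pm x σ a‖ ≤ ‖Par.pm x σ a - Par.pm x σ (P.w (j+1))‖ + ‖Par.pm x σ (P.w (j+1))‖ := by
        have := norm_add_le (Par.pm x σ a - Par.pm x σ (P.w (j+1))) (Par.pm x σ (P.w (j+1)))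
        rwa [sub_add_cancel] at this
      linarith
    · have h4 := P.inner hn hup hc (P.k - (j+1)) (j+1) (by omega) le_rfl a h2 σ
      have e : j + 1 - j - 1 = 0 := by omega
      rw [e, pow_zero, mul_one] at h4
      linarith
  obtain ⟨σ, hσ, hu'⟩ := Par.pm_of x u
  obtain ⟨τ, hτ, hv'⟩ := Par.pm_of x v
  have hua : u.natAbs ≤ P.w j := by rw [Int.abs_eq_natAbs] at hu; exact_mod_cast hu
  have hva : v.natAbs ≤ P.w j := by rw [Int.abs_eq_natAbs] at hv; exact_mod_cast hv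
  have hcast : ((2^(P.Hk j) : ℕ) : ℤ) = (2:ℤ)^(P.Hk j) := by push_cast; rfl
  rw [← hcast] at hcon
  -- same sign, both in the shell
  by_cases hsame : σ = τ ∧ P.w (j+1) ≤ u.natAbs ∧ P.w (j+1) ≤ v.natAbs
  · obtain ⟨rfl, hu1, hv1⟩ := hsame
    have hd : u.natAbs ≤ v.natAbs + 2^(P.Hk j) ∧ v.natAbs ≤ u.natAbs + 2^(P.Hk j) := by
      rw [abs_lt] at hcon
      cases σ
      · rw [if_neg (by simp)] at hu' hv'
        omega
      · rw [if_pos rfl] at hu' hv'
        omega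
    have h5 : ‖S x u - S x v‖ ≤ 3 * (P.r n j / 32) := by
      rw [hσ, hτ]
      rcases le_total u.natAbs v.natAbs with h | h
      · rw [norm_sub_rev]
        exact near (by positivity) (P.loOK (j+1)) hH1 (Par.small_pm h1 σ) _ _ hu1 h hva hd.2
      · exact near (by positivity) (P.loOK (j+1)) hH1 (Par.small_pm h1 σ) _ _ hv1 h hua hd.1
    linarith
  · have hd : u.natAbs ≤ P.w (j+1) + 2^(P.Hk j) ∧ v.natAbs ≤ P.w (j+1) + 2^(P.Hk j) := by
      rw [abs_lt] at hcon
      by_contra hcc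
      apply hsame
      have hcast2 : (0:ℤ) ≤ ((2^(P.Hk j) : ℕ) : ℤ) := Int.natCast_nonneg _
      generalize (2^(P.Hk j) : ℕ) = q at hcon hcc hcast2
      generalize u.natAbs = a at hu' hcc ⊢
      generalize v.natAbs = b at hv' hcc ⊢
      cases σ
      · cases τ
        · rw [if_neg (by simp)] at hu' hv'
          exact ⟨rfl, by omega, by omega⟩
        · rw [if_neg (by simp)] at hu'
          rw [if_pos rfl] at hv'
          exfalso
          omega
      · cases τ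
        · rw [if_neg (by simp)] at hv'
          rw [if_pos rfl] at hu'
          exfalso
          omega
        · rw [if_pos rfl] at hu' hv'
          exact ⟨rfl, by omega, by omega⟩
    have h5 := hedge σ u.natAbs hua hd.1
    have h6 := hedge τ v.natAbs hva hd.2
    have h7 := norm_sub_le (S x u) (S x v)
    rw [hσ, hτ] at h7
    rw [hσ, hτ] at hs
    linarith

/-- **attribution** -/
theorem good_of {n j : ℕ} (hn : 1 ≤ n) (hj : j < P.k) {x : ℤ → E n}
    (hdown : ∀ i < j, x ∉ P.Fdown n i (j - i)) (hown : x ∉ P.Fown n j)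
    (hup : ∀ i, j < i → i < P.k → x ∉ P.Fup n i (i - j)) (hc : x ∉ P.Fcore n (P.k - j)) :
    P.GG n j x where
  ret u hu hs := P.ret_of hn hj hdown u hu hs
  osc u v hu hv hs := P.osc_of hn hj hown hup hc u v hu hv hs
  chain L u hu hs hd := P.chain_of hn hj hown hup hc L u hu hs hd

end Pa

end Pool.Agent.H27.CD
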