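import Pool.Agent.H27.CD.Limit2
import Pool.Graph.R_seed8.R966.CD.BM

/-!
A majorant of the weight of the bad levels.
-/

set_option autoImplicit false

namespace Pool.Agent.H27.CD

open Pool.Agent.R966.CD
open Pool.Agent.K7.H80.CD2 (bc GoodL)
open MeasureTheory ProbabilityTheory Filter Topology
open scoped NNReal ENNReal

variable {n : ℕ} {Ω : Type*} [MeasurableSpace Ω] {P : Measure Ω} {B : ℝ≥0 → Ω → E n}

/-- **measurable majorant of the weight of the bad levels** -/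
theorem majorant2 [IsProbabilityMeasure P] (hB : IsBM P B) (hn : 11 ≤ n) (R : Prm) (k m i : ℕ)
    (hi : i ≤ 2^m) (c0 : ℝ≥0∞) (hc1 : 1 ≤ c0)
    (hc : c0 ≤ 2^(2*R.g + R.g/20)) :
    ∃ H : Ω → ℝ≥0∞, Measurable H ∧ ∫⁻ ω, H ω ∂P ≤ 2^(k+2) ∧ ∀ ω, (Continuous fun t => B t ω) →
      c0^(bc (path B ω) (Real.sqrt n) (2^R.β) (2^(12*R.h)) (1/2^(21 + 2*R.f)) (cc R) k ((i:ℝ)/2^m)) ≤ H ω := by
  classical
  -- the data
  obtain ⟨Q, hQ⟩ : ∃ Q : ℕ → Pa, Q = PP2 R k m := ⟨_, rfl⟩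
  have hQN : ∀ a, (Q a).N = NN2 R k m a := by intro a; rw [hQ]; rfl
  have hQk : ∀ a, (Q a).k = k := by intro a; rw [hQ]; rfl
  have hQg : ∀ a, (Q a).g = R.g := by intro a; rw [hQ]; rfl
  obtain ⟨c, hcd⟩ : ∃ c : ℕ → ℕ, c = fun a => i * 2^(NN2 R k m a - m) := ⟨_, rfl⟩
  have hNm : ∀ a, m ≤ NN2 R k m a := by intro a; unfold NN2; omega
  have hcle : ∀ a, c a ≤ 2^(NN2 R k m a) := by
    intro a
    rw [hcd]
    calc i * 2^(NN2 R k m a - m) ≤ 2^m * 2^(NN2 R k m a - m) := Nat.mul_le_mul_right _ hi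
      _ = 2^(NN2 R k m a) := by rw [← pow_add]; congr 1; have := hNm a; omega
  obtain ⟨T, hT⟩ : ∃ T : ℕ → Finset ℤ, T = fun a => (Q a).W 0 \ cells (NN2 R k m a) (c a) := ⟨_, rfl⟩
  have hdis : ∀ a, Disjoint (cells (NN2 R k m a) (c a)) (T a) := by
    intro a; rw [hT]; exact Finset.disjoint_sdiff
  have hsub : ∀ a, cells (NN2 R k m a) (c a) ⊆ (Q a).W 0 := by
    intro a u hu
    have h1 : 2^(NN2 R k m a) ≤ (Q a).w 0 := by
      unfold Pa.w
      rw [hQN]
      exact Nat.pow_le_pow_right (by norm_num) (by omega)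
    have h2 := hcle a
    unfold cells at hu
    unfold Pa.W
    rw [Finset.mem_Ico] at hu ⊢
    omega
  obtain ⟨g, hg⟩ : ∃ g : ℕ → Ω → ℝ≥0∞, g = fun a ω =>
      (∫⋯∫⁻_(T a), (Q a).Gm (2^(Q a).e) ∂(fun _ => gam n (Q a).v))
        (Function.updateFinset 0 (cells (NN2 R k m a) (c a)) (X B (NN2 R k m a) (c a) ω)) := ⟨_, rfl⟩
  have hgm0 : ∀ a, Measurable (∫⋯∫⁻_(T a), (Q a).Gm (n := n) (2^(Q a).e) ∂(fun _ => gam n (Q a).v)) := by
    intro a
    exact ((Q a).measurable_Gm (2^(Q a).e)).lmarginal _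
  have hgm : ∀ a, Measurable (g a) := by
    intro a
    rw [hg]
    exact ((hgm0 a).comp measurable_updateFinset).comp (measurable_X hB _ _)
  have hgint : ∀ a, ∫⁻ ω, g a ω ∂P ≤ 2^(k+2) := by
    intro a
    have h1 : ∫⁻ ω, g a ω ∂P = ∫⁻ z, (∫⋯∫⁻_(T a), (Q a).Gm (2^(Q a).e) ∂(fun _ => gam n (Q a).v))
        (Function.updateFinset 0 (cells (NN2 R k m a) (c a)) z)
        ∂(P.map (X B (NN2 R k m a) (c a))) := by
      rw [hg]
      exact (lintegral_map ((hgm0 a).comp measurable_updateFinset) (measurable_X hB _ _)).symm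
    rw [h1, law_X hB]
    have h2 : ((2:ℝ≥0)^(NN2 R k m a))⁻¹ = (Q a).v := by unfold Pa.v; rw [hQN]
    rw [h2]
    have h3 : (∫⋯∫⁻_(cells (NN2 R k m a) (c a)), (∫⋯∫⁻_(T a), (Q a).Gm (2^(Q a).e) ∂(fun _ => gam n (Q a).v))
        ∂(fun _ => gam n (Q a).v)) (0 : ℤ → E n) ≤ 2^(k+2) := by
      rw [← lmarginal_union _ _ ((Q a).measurable_Gm (2^(Q a).e)) (hdis a)]
      have h4 : cells (NN2 R k m a) (c a) ∪ T a = (Q a).W 0 := by
        rw [hT]
        exact Finset.union_sdiff_of_subset (hsub a)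
      rw [h4]
      have h5 := (Q a).lmarginal_Gm hn 0
      rwa [hQk] at h5
    exact h3
  refine ⟨fun ω => liminf (fun a => g a ω) atTop, Measurable.liminf hgm, ?_, ?_⟩
  · refine (lintegral_liminf_le hgm).trans ?_
    refine liminf_le_of_le (by isBoundedDefault) ?_
    intro b hb
    obtain ⟨a, ha⟩ := hb.exists
    exact ha.trans (hgint a)
  · intro ω hω
    have hγ : ContinuousOn (path B ω) (Set.Icc 0 1) := (continuous_path hω).continuousOn
    -- bad levels of the path are bad for all the walks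
    have hbad : ∀ j < k, ¬ GoodL (path B ω) (Real.sqrt n) (2^R.β) (2^(12*R.h)) (1/2^(21 + 2*R.f)) (cc R) j
        ((i:ℝ)/2^m) → ∀ᶠ a in atTop, ∀ y : T a → E n,
        ¬ (Q a).GG n j (ext (NN2 R k m a) (c a) (T a) (X B (NN2 R k m a) (c a) ω) y) := by
      intro j hj hnot
      by_contra hcon
      rw [not_eventually] at hcon
      simp only [not_forall, not_not] at hcon
      apply hnot
      have hchoice : ∀ a, ∃ y : T a → E n, (∃ y : T a → E n,
          (Q a).GG n j (ext (NN2 R k m a) (c a) (T a) (X B (NN2 R k m a) (c a) ω) y)) →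
          (Q a).GG n j (ext (NN2 R k m a) (c a) (T a) (X B (NN2 R k m a) (c a) ω) y) := by
        intro a
        by_cases h : ∃ y : T a → E n,
          (Q a).GG n j (ext (NN2 R k m a) (c a) (T a) (X B (NN2 R k m a) (c a) ω) y)
        · exact ⟨h.choose, fun _ => h.choose_spec⟩
        · exact ⟨0, fun h' => absurd h' h⟩
      choose y hy using hchoice
      refine good_of_frequently2 (path B ω) hγ R k m i hi j hj
        (fun a => ext (NN2 R k m a) (c a) (T a) (X B (NN2 R k m a) (c a) ω) (y a)) ?_ ?_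
      · intro a u h1 h2
        have h3 := S_ext (B := B) (hcle a) (hdis a) ω (y a) u (by rw [hcd]; exact h1) (by rw [hcd]; exact h2)
        have h4 : ((c a : ℕ) : ℝ) / 2^(NN2 R k m a) = (i:ℝ)/2^m := by
          rw [hcd]
          push_cast
          obtain ⟨e, he⟩ : ∃ e, NN2 R k m a = m + e := ⟨NN2 R k m a - m, by have := hNm a; omega⟩
          rw [he, Nat.add_sub_cancel_left, pow_add]
          field_simp
        rw [h4] at h3
        exact h3
      · refine hcon.mono fun a ha => ?_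
        have := hy a ha
        rw [hQ] at this
        exact this
    have hall : ∀ᶠ a in atTop, ∀ j ∈ Finset.range k,
        ¬ GoodL (path B ω) (Real.sqrt n) (2^R.β) (2^(12*R.h)) (1/2^(21 + 2*R.f)) (cc R) j ((i:ℝ)/2^m) →
        ∀ y : T a → E n,
        ¬ (Q a).GG n j (ext (NN2 R k m a) (c a) (T a) (X B (NN2 R k m a) (c a) ω) y) := by
      rw [Filter.eventually_all_finset]
      intro j hj
      by_cases h : GoodL (path B ω) (Real.sqrt n) (2^R.β) (2^(12*R.h)) (1/2^(21 + 2*R.f)) (cc R) j ((i:ℝ)/2^m)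
      · exact Eventually.of_forall fun a h' => absurd h h'
      · exact (hbad j (Finset.mem_range.mp hj) h).mono fun a ha _ => ha
    refine le_liminf_of_le (by isBoundedDefault) ?_
    refine hall.mono fun a ha => ?_
    have hpt : ∀ y : T a → E n, c0^(bc (path B ω) (Real.sqrt n) (2^R.β) (2^(12*R.h)) (1/2^(21 + 2*R.f)) (cc R) k
        ((i:ℝ)/2^m)) ≤ (Q a).Gm (2^(Q a).e) (ext (NN2 R k m a) (c a) (T a) (X B (NN2 R k m a) (c a) ω) y) := by
      intro y
      refine le_trans (pow_le_pow_right₀ hc1 ?_) ((Q a).pow_NB_le (by omega) c0 (by rw [hQg]; exact hc) _)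
      unfold bc Pa.NB
      rw [hQk]
      apply Finset.card_le_card
      intro j hj
      rw [Finset.mem_filter] at hj ⊢
      exact ⟨hj.1, ha j hj.1 hj.2 y⟩
    rw [hg]
    show _ ≤ ∫⁻ y : T a → E n, (Q a).Gm (2^(Q a).e) (ext (NN2 R k m a) (c a) (T a) (X B (NN2 R k m a) (c a) ω) y)
      ∂Measure.pi fun _ => gam n (Q a).v
    calc _ = ∫⁻ _ : T a → E n, c0^(bc (path B ω) (Real.sqrt n) (2^R.β) (2^(12*R.h)) (1/2^(21 + 2*R.f)) (cc R) k
        ((i:ℝ)/2^m)) ∂Measure.pi fun _ => gam n (Q a).v := by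
          rw [lintegral_const, measure_univ, mul_one]
      _ ≤ _ := lintegral_mono hpt

end Pool.Agent.H27.CD
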