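import Pool.Agent.H27.CD.Prod2
import Pool.Graph.R_seed8.R966.CD.Count

/-!
Counting the bad levels.
-/

set_option autoImplicit false

namespace Pool.Agent.H27.CD

open Pool.Agent.R966.CD
open MeasureTheory ProbabilityTheory
open scoped NNReal ENNReal

namespace Pa

variable (P : Pa) {n : ℕ}

/-- number of bad levels of the walk -/
noncomputable def NB (n : ℕ) (x : ℤ → E n) : ℕ :=
  open Classical in ((Finset.range P.k).filter fun j => ¬ P.GG n j x).card

/-- largest scale of the events of a block -/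
noncomputable def L (i : ℕ) (x : ℤ → E n) : ℕ := Pool.Agent.R966.CD.top (50*P.k) (P.F n i) x

/-- largest scale of the events of the core -/
noncomputable def Lc (x : ℤ → E n) : ℕ := Pool.Agent.R966.CD.top (50*P.k) (P.Fc n) x

/-- **the number of the bad levels**: the levels spoiled below, the own level included, cost one unit of
scale each, the levels spoiled above fifty units -/
theorem NB_le (hn : 1 ≤ n) (x : ℤ → E n) :
    50 * P.NB n x ≤ 51 * ∑ i ∈ Finset.range P.k, P.L i x + P.Lc x := by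
  classical
  have hsub : ((Finset.range P.k).filter fun j => ¬ P.GG n j x) ⊆
      ((Finset.range P.k).biUnion fun i => (if x ∈ P.Fown n i then Finset.Ico i (i + P.L i x) else
        Finset.Ico (i + 1) (i + P.L i x + 1)) ∪ Finset.Ico (i - P.L i x / 50) i) ∪
        Finset.Ico (P.k - P.Lc x / 50) P.k := by
    intro j hj
    rw [Finset.mem_filter, Finset.mem_range] at hj
    obtain ⟨hjk, hbad⟩ := hj
    rw [Finset.mem_union]
    by_contra hcon
    rw [not_or] at hcon
    obtain ⟨hc1, hc2⟩ := hcon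
    apply hbad
    apply P.good_of hn hjk
    · intro i hi hmem
      apply hc1
      rw [Finset.mem_biUnion]
      refine ⟨i, Finset.mem_range.mpr (by omega), ?_⟩
      rw [Finset.mem_union]
      left
      split
      · rename_i ho
        have h5 : (j - i) + 1 ≤ P.L i x := by
          refine Pool.Agent.R966.CD.le_top (by omega) (by omega) ?_
          unfold F
          rw [if_pos (show 2 ≤ (j - i) + 1 ∧ i + ((j - i) + 1 - 1) ≤ P.k by omega)]
          exact Or.inr (Or.inr ⟨ho, by rw [Nat.add_sub_cancel]; exact hmem⟩)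
        rw [Finset.mem_Ico]
        omega
      · have h5 : j - i ≤ P.L i x := by
          refine Pool.Agent.R966.CD.le_top (by omega) (by omega) ?_
          unfold F
          rw [if_pos (show i + (j - i) ≤ P.k by omega)]
          exact Or.inl (Or.inl hmem)
        rw [Finset.mem_Ico]
        omega
    · intro hmem
      apply hc1
      rw [Finset.mem_biUnion]
      refine ⟨j, Finset.mem_range.mpr hjk, ?_⟩
      rw [Finset.mem_union]
      left
      rw [if_pos hmem]
      have h5 : 1 ≤ P.L j x := by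
        refine Pool.Agent.R966.CD.le_top le_rfl (by omega) ?_
        unfold F
        rw [if_pos (rfl : 1 = 1)]
        exact Or.inr (Or.inl hmem)
      rw [Finset.mem_Ico]
      omega
    · intro i hi hik hmem
      apply hc1
      rw [Finset.mem_biUnion]
      refine ⟨i, Finset.mem_range.mpr hik, ?_⟩
      rw [Finset.mem_union]
      right
      have h5 : 50 * (i - j) ≤ P.L i x := by
        refine Pool.Agent.R966.CD.le_top (by omega) (by omega) ?_
        unfold F
        rw [if_pos (show 50 ∣ 50 * (i - j) from ⟨_, rfl⟩),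
          show 50 * (i - j) / 50 = i - j by omega]
        exact Or.inl (Or.inr hmem)
      rw [Finset.mem_Ico]
      omega
    · intro hmem
      have h5 : 50 * (P.k - j) ≤ P.Lc x := by
        refine Pool.Agent.R966.CD.le_top (by omega) (by omega) ?_
        unfold Fc
        rw [if_pos (show 50 ∣ 50 * (P.k - j) from ⟨_, rfl⟩),
          show 50 * (P.k - j) / 50 = P.k - j by omega]
        exact hmem
      apply hc2
      rw [Finset.mem_Ico]
      omega
  have h1 := (Finset.card_le_card hsub).trans (Finset.card_union_le _ _)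
  have h2 : ((Finset.range P.k).biUnion fun i => (if x ∈ P.Fown n i then Finset.Ico i (i + P.L i x) else
        Finset.Ico (i + 1) (i + P.L i x + 1)) ∪ Finset.Ico (i - P.L i x / 50) i).card ≤
        ∑ i ∈ Finset.range P.k, (P.L i x + P.L i x / 50) := by
    refine Finset.card_biUnion_le.trans (Finset.sum_le_sum fun i _ => ?_)
    refine (Finset.card_union_le _ _).trans ?_
    have h3 : (Finset.Ico (i - P.L i x / 50) i).card ≤ P.L i x / 50 := by
      rw [Nat.card_Ico]
      omega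
    have h4 : (if x ∈ P.Fown n i then Finset.Ico i (i + P.L i x) else
        Finset.Ico (i + 1) (i + P.L i x + 1)).card ≤ P.L i x := by
      split
      · rw [Nat.card_Ico]
        omega
      · rw [Nat.card_Ico]
        omega
    omega
  have h3 : (Finset.Ico (P.k - P.Lc x / 50) P.k).card ≤ P.Lc x / 50 := by
    rw [Nat.card_Ico]
    omega
  have h4 : P.NB n x = ((Finset.range P.k).filter fun j => ¬ P.GG n j x).card := rfl
  have h5 : 50 * ∑ i ∈ Finset.range P.k, (P.L i x + P.L i x / 50) ≤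
      51 * ∑ i ∈ Finset.range P.k, P.L i x := by
    rw [Finset.mul_sum, Finset.mul_sum]
    apply Finset.sum_le_sum
    intro i _
    omega
  omega

theorem prod_le_Pr (c : ℝ≥0∞) (x : ℤ → E n) : ∀ m i,
    c^(∑ t ∈ Finset.range m, P.L (i + 2*t) x) ≤ P.Pr c m i x := by
  intro m
  induction m with
  | zero =>
    intro i
    rw [Finset.sum_range_zero, pow_zero]
    exact le_refl _
  | succ m ih =>
    intro i
    rw [Finset.sum_range_succ']
    have h1 : ∑ t ∈ Finset.range m, P.L (i + 2*(t+1)) x = ∑ t ∈ Finset.range m, P.L ((i+2) + 2*t) x := by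
      apply Finset.sum_congr rfl
      intro t _
      congr 1
      ring
    rw [h1, pow_add, mul_comm]
    show _ ≤ P.Z c i x * P.Pr c m (i+2) x
    exact mul_le_mul' (pow_top_le _ _ _ _) (ih (i+2))

theorem sum_split (f : ℕ → ℕ) (k : ℕ) : ∑ i ∈ Finset.range k, f i =
    (∑ t ∈ Finset.range ((k+1)/2), f (0 + 2*t)) + (∑ t ∈ Finset.range (k/2), f (1 + 2*t)) := by
  induction k with
  | zero => simp
  | succ k ih =>
    rw [Finset.sum_range_succ, ih]
    rcases Nat.even_or_odd' k with ⟨c, hc | hc⟩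
    · have e1 : (k+1)/2 = c := by omega
      have e2 : (k+1+1)/2 = c + 1 := by omega
      have e3 : k/2 = c := by omega
      rw [e2, e1, e3, Finset.sum_range_succ]
      have e4 : 0 + 2*c = k := by omega
      rw [e4]
      ring
    · have e1 : (k+1)/2 = c+1 := by omega
      have e2 : (k+1+1)/2 = c + 1 := by omega
      have e3 : k/2 = c := by omega
      rw [e2, e1, e3, Finset.sum_range_succ (fun t => f (1 + 2*t)) c]
      have e4 : 1 + 2*c = k := by omega
      rw [e4]
      ring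

/-- measurable majorant of the weight -/
noncomputable def Gm (c : ℝ≥0∞) (x : ℤ → E n) : ℝ≥0∞ :=
  P.Pr c ((P.k+1)/2) 0 x + P.Pr c (P.k/2) 1 x + Par.Zs (50*P.k) c (P.Fc n) x

theorem measurable_Gm (c : ℝ≥0∞) : Measurable (P.Gm (n := n) c) :=
  ((P.measurable_Pr _ _ _).add (P.measurable_Pr _ _ _)).add
    (Par.measurable_Zs _ _ _ fun l => P.measurable_Fc n l)

theorem pow_NB_le (hn : 1 ≤ n) (c : ℝ≥0∞) (hc : c ≤ 2^(2*P.g + P.g/20)) (x : ℤ → E n) :
    c^(P.NB n x) ≤ P.Gm (2^P.e) x := by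
  have h2 : (1:ℝ≥0∞) ≤ 2 := by norm_num
  obtain ⟨A, hA⟩ : ∃ A, A = ∑ t ∈ Finset.range ((P.k+1)/2), P.L (0 + 2*t) x := ⟨_, rfl⟩
  obtain ⟨B, hB⟩ : ∃ B, B = ∑ t ∈ Finset.range (P.k/2), P.L (1 + 2*t) x := ⟨_, rfl⟩
  obtain ⟨D, hD⟩ : ∃ D, D = P.Lc x := ⟨_, rfl⟩
  have h1 := P.NB_le hn x
  rw [sum_split, ← hA, ← hB, ← hD] at h1
  obtain ⟨M, hM⟩ : ∃ M, M = max (max A B) D := ⟨_, rfl⟩
  have h3 : 50 * P.NB n x ≤ 103 * M := by omega
  have h4 : (2*P.g + P.g/20) * P.NB n x ≤ P.e * M := by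
    have hg := P.hg
    have h5 : 103 * (2*P.g + P.g/20) ≤ 50 * P.e := by
      have := P.le_e
      omega
    have h6 : 50 * ((2*P.g + P.g/20) * P.NB n x) ≤ 50 * (P.e * M) := by
      calc 50 * ((2*P.g + P.g/20) * P.NB n x) = (2*P.g + P.g/20) * (50 * P.NB n x) := by ring
        _ ≤ (2*P.g + P.g/20) * (103 * M) := Nat.mul_le_mul_left _ h3
        _ = 103 * (2*P.g + P.g/20) * M := by ring
        _ ≤ 50 * P.e * M := Nat.mul_le_mul_right _ h5
        _ = _ := by ring
    omega
  have h7 : c^(P.NB n x) ≤ ((2:ℝ≥0∞)^P.e)^M := by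
    calc c^(P.NB n x) ≤ ((2:ℝ≥0∞)^(2*P.g + P.g/20))^(P.NB n x) := pow_le_pow_left' hc _
      _ = (2:ℝ≥0∞)^((2*P.g + P.g/20) * P.NB n x) := by rw [← pow_mul]
      _ ≤ (2:ℝ≥0∞)^(P.e * M) := pow_le_pow_right₀ h2 h4
      _ = _ := by rw [← pow_mul]
  refine h7.trans ?_
  have hA' := P.prod_le_Pr (2^P.e) x ((P.k+1)/2) 0
  have hB' := P.prod_le_Pr (2^P.e) x (P.k/2) 1
  have hD' := pow_top_le (50*P.k) (2^P.e) (P.Fc n) x
  rw [← hA] at hA'
  rw [← hB] at hB'
  have hD2 : P.Lc x = Pool.Agent.R966.CD.top (50*P.k) (P.Fc n) x := rfl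
  rw [← hD2, ← hD] at hD'
  unfold Gm
  have hcases : M = A ∨ M = B ∨ M = D := by omega
  rcases hcases with h | h | h
  · rw [h]
    refine hA'.trans ?_
    rw [add_assoc]
    exact le_self_add
  · rw [h]
    refine hB'.trans ?_
    rw [add_assoc]
    exact le_self_add.trans le_add_self
  · rw [h]
    exact hD'.trans le_add_self

/-- **expected weight of the bad levels** -/
theorem lmarginal_Gm (hn : 11 ≤ n) (x : ℤ → E n) :
    (∫⋯∫⁻_(P.W 0), P.Gm (2^P.e) ∂(fun _ => gam n P.v)) x ≤ 2^(P.k+2) := by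
  obtain ⟨c, hcd⟩ : ∃ c : ℝ≥0∞, c = 2^P.e := ⟨_, rfl⟩
  have hc : c * ENNReal.ofReal ((1/2 : ℝ)^(P.e+1)) ≤ 2⁻¹ := by
    have e9 : (2:ℝ≥0∞) = ENNReal.ofReal 2 := by norm_num
    have e : (2⁻¹ : ℝ≥0∞) = ENNReal.ofReal (1/2) := by
      rw [one_div, ENNReal.ofReal_inv_of_pos (by norm_num)]
      norm_num
    rw [hcd, e, e9, ← ENNReal.ofReal_pow (by norm_num), ← ENNReal.ofReal_mul (by positivity)]
    apply ENNReal.ofReal_le_ofReal
    calc (2:ℝ)^P.e * (1/2:ℝ)^(P.e+1) ≤ (1/2:ℝ)^1 := pow_cmp (by omega)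
      _ = 1/2 := pow_one _
  rw [← hcd]
  have h1 := P.Pr_bound hn c hc ((P.k+1)/2) 0 (by omega) x
  have h2 : (∫⋯∫⁻_(P.W 0), P.Pr c (P.k/2) 1 ∂(fun _ => gam n P.v)) x ≤ 2^(P.k/2) :=
    lmarginal_le_of_subset' P.v (P.W_sub (Nat.zero_le 1)) _ (P.measurable_Pr _ _ _) _
      (P.Pr_bound hn c hc (P.k/2) 1 (by omega)) x
  have h3 := Par.lmarginal_Zs P.v (P.W 0) (50*P.k) c _ (P.Fc n) (fun l => P.measurable_Fc n l) x
    (fun l hl => by
      refine (P.Q_Fc hn l hl x).trans (le_of_eq ?_)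
      rw [ENNReal.ofReal_pow (by positivity)]) hc
  have h4 : (∫⋯∫⁻_(P.W 0), P.Gm c ∂(fun _ => gam n P.v)) x =
      (∫⋯∫⁻_(P.W 0), P.Pr c ((P.k+1)/2) 0 ∂(fun _ => gam n P.v)) x +
      (∫⋯∫⁻_(P.W 0), P.Pr c (P.k/2) 1 ∂(fun _ => gam n P.v)) x +
      (∫⋯∫⁻_(P.W 0), Par.Zs (50*P.k) c (P.Fc n) ∂(fun _ => gam n P.v)) x := by
    unfold lmarginal
    have m1 := (P.measurable_Pr (n := n) c ((P.k+1)/2) 0).comp
      (measurable_updateFinset (s := P.W 0) (x := x))
    have m2 := (P.measurable_Pr (n := n) c (P.k/2) 1).comp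
      (measurable_updateFinset (s := P.W 0) (x := x))
    have e1 := lintegral_add_left (μ := Measure.pi fun i : P.W 0 => gam n P.v)
      m1 (fun y => P.Pr c (P.k/2) 1 (Function.updateFinset x (P.W 0) y))
    have e2 := lintegral_add_left (μ := Measure.pi fun i : P.W 0 => gam n P.v)
      (m1.add m2) (fun y => Par.Zs (50*P.k) c (P.Fc n) (Function.updateFinset x (P.W 0) y))
    refine e2.trans ?_
    congr 1
  rw [h4]
  have p1 : (2:ℝ≥0∞)^((P.k+1)/2) ≤ 2^P.k + 0 := by
    rw [add_zero]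
    exact pow_le_pow_right₀ (by norm_num) (by omega)
  have p2 : (2:ℝ≥0∞)^(P.k/2) ≤ 2^P.k := pow_le_pow_right₀ (by norm_num) (by omega)
  have p3 : (2:ℝ≥0∞) ≤ 2 * 2^P.k := by
    nth_rewrite 1 [← mul_one (2:ℝ≥0∞)]
    exact mul_le_mul_right (one_le_pow₀ (by norm_num)) _
  calc _ ≤ (2^((P.k+1)/2) + 2^(P.k/2)) + 2 := add_le_add (add_le_add h1 h2) h3
    _ ≤ (2^P.k + 0 + 2^P.k) + 2 * 2^P.k := add_le_add (add_le_add p1 p2) p3
    _ = 2^(P.k+2) := by rw [add_zero, pow_add]; ring

end Pa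

end Pool.Agent.H27.CD
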