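import Pool.Agent.H27.CD.Blocks2
import Pool.Graph.R_pool_sql_team_seeded_35f281b4.K7.H80.CD2.Indep

/-!
Cut times: their number is large with overwhelming probability.
-/

set_option autoImplicit false

namespace Pool.Agent.H27.CD

open Pool.Agent.R966.CD
open Pool.Agent.K7.H80.CD2 (Q_many)
open MeasureTheory ProbabilityTheory
open scoped NNReal ENNReal

theorem sum_inv_sq (B : ℕ) : ∑ a ∈ Finset.range B, 1 / ((a:ℝ)+1)^2 ≤ 2 := by
  have h : ∀ B : ℕ, ∑ a ∈ Finset.range (B+1), 1 / ((a:ℝ)+1)^2 ≤ 2 - 1/((B:ℝ)+1) := by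
    intro B
    induction B with
    | zero => norm_num
    | succ B ih =>
      rw [Finset.sum_range_succ]
      push_cast
      have h1 : (0:ℝ) < (B:ℝ) + 1 := by positivity
      have h2 : (0:ℝ) < (B:ℝ) + 1 + 1 := by positivity
      have h3 : 1 / ((B:ℝ)+1+1)^2 ≤ 1/((B:ℝ)+1) - 1/((B:ℝ)+1+1) := by
        rw [div_sub_div _ _ h1.ne' h2.ne', div_le_div_iff₀ (by positivity) (by positivity)]
        nlinarith
      linarith
  rcases Nat.eq_zero_or_pos B with h0 | h0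
  · subst h0; simp
  · obtain ⟨B', rfl⟩ : ∃ B', B = B' + 1 := ⟨B - 1, by omega⟩
    have := h B'
    have h1 : (0:ℝ) ≤ 1/((B':ℝ)+1) := by positivity
    linarith

namespace Pa

variable (P : Pa)

/-- least gap of the near returns -/
def Hc (i : ℕ) : ℕ := P.N + 100 + 8*P.f - 2*P.β*(i+1)

/-- spacing of the possible cut times -/
def HG (i : ℕ) : ℕ := P.N + 101 + 8*P.f - 2*P.β*(i+1)

/-- largest gap of the near returns -/
def HL (i : ℕ) : ℕ := P.N + P.b - 2*P.β*(i+1)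

/-- bound for the indices of the anchors -/
def BB : ℕ := 2^(P.b + 13 + 2*P.f)

/-- an anchor on the left of `c` -/
def pa (i : ℕ) (c : ℤ) (a : ℕ) : ℤ := c + (1 - a) * 2^(P.Hd i 1)

/-- an anchor on the right of `c` -/
def pb (i : ℕ) (c : ℤ) (b : ℕ) : ℤ := c + (b - 1) * 2^(P.Hd i 1)

/-- `c` is not a cut time: a near return over `c` -/
def NC (n i : ℕ) (c : ℤ) : Set (ℤ → E n) :=
  ⋃ ab ∈ ((Finset.range P.BB) ×ˢ (Finset.range P.BB)).filter fun ab : ℕ × ℕ =>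
    (2:ℤ)^(P.Hc i) ≤ P.pb i c ab.2 - P.pa i c ab.1 ∧ -(P.w i : ℤ) ≤ P.pa i c ab.1 ∧
      P.pb i c ab.2 ≤ P.w i,
    {x | ‖S x (P.pb i c ab.2) - S x (P.pa i c ab.1)‖ ≤ 7 * P.r n (i+1)}

theorem measurable_NC (n i : ℕ) (c : ℤ) : MeasurableSet (P.NC n i c) := by
  unfold NC
  exact Finset.measurableSet_biUnion _ fun p _ => measurable_ball n _ _ _

/-- the cells on which the event depends -/
noncomputable def D (i : ℕ) (c : ℤ) : Finset ℤ := Finset.Ico (c - 2 * 2^(P.HL i)) (c + 2 * 2^(P.HL i)) ∩ P.W i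

theorem scales {i : ℕ} (hi : i + 1 ≤ P.k) : ∃ e : ℕ, P.Hd i 1 = e ∧ P.Hc i = e + (112 + 10*P.f) ∧
    P.HG i = e + (113 + 10*P.f) ∧ P.HL i = e + (P.b + 12 + 2*P.f) ∧ P.HJ i = e + (2*P.β - 12) ∧
    P.N + P.b - 2*P.β*i = e + (2*P.β + P.b + 12 + 2*P.f) ∧ P.N = e + 2*P.β*(i+1) + 12 + 2*P.f ∧
    P.Hk i = e + (2*P.β - 9) ∧ P.N + P.b - 2*P.β*(i+1) = e + (P.b + 12 + 2*P.f) := by
  have h1 := P.exp_le (show i + 1 ≤ P.k + 1 by omega)
  have h2 := P.hβ
  have h3 : 2*P.β*(i+1) = 2*P.β*i + 2*P.β := by ring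
  unfold Hd Hc HG HL HJ Hk
  refine ⟨_, rfl, ?_, ?_, ?_, ?_, ?_, ?_, ?_, ?_⟩ <;> omega

/-- the exponents in terms of `h` -/
theorem bh : P.b = 12 * P.h ∧ P.β = 10 * P.h ∧ 200 + 20 * P.f ≤ P.h := by
  have := P.hβg
  have := P.hgh
  have := P.hg
  refine ⟨rfl, by omega, by omega⟩

theorem pa_pb (i : ℕ) (c : ℤ) (a b : ℕ) : P.pb i c b - P.pa i c a = ((a:ℤ) + b - 2) * 2^(P.Hd i 1) := by
  unfold pa pb
  ring

theorem Ico_sub {i : ℕ} (hi : i + 1 ≤ P.k) {c : ℤ} {a b : ℕ} (ha : a < P.BB) (hb : b < P.BB)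
    (h1 : -(P.w i : ℤ) ≤ P.pa i c a) (h2 : P.pb i c b ≤ P.w i) :
    Finset.Ico (P.pa i c a) (P.pb i c b) ⊆ P.D i c := by
  obtain ⟨e, e1, e2, e3, e4, -⟩ := P.scales hi
  intro j hj
  rw [Finset.mem_Ico] at hj
  unfold D W
  rw [Finset.mem_inter, Finset.mem_Ico, Finset.mem_Ico]
  have hBB : (P.BB : ℤ) * 2^(P.Hd i 1) = 2 * 2^(P.HL i) := by
    unfold BB
    rw [e1, e4]
    push_cast
    rw [← pow_add, ← pow_succ']
    congr 1
    omega
  have hpos : (0:ℤ) < 2^(P.Hd i 1) := by positivity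
  have ha' : (a:ℤ) + 1 ≤ P.BB := by exact_mod_cast ha
  have hb' : (b:ℤ) + 1 ≤ P.BB := by exact_mod_cast hb
  have h3 : ((a:ℤ) - 1) * 2^(P.Hd i 1) ≤ P.BB * 2^(P.Hd i 1) :=
    mul_le_mul_of_nonneg_right (by omega) hpos.le
  have h4 : ((b:ℤ) - 1) * 2^(P.Hd i 1) ≤ P.BB * 2^(P.Hd i 1) :=
    mul_le_mul_of_nonneg_right (by omega) hpos.le
  have e5 : P.pa i c a = c - ((a:ℤ) - 1) * 2^(P.Hd i 1) := by unfold pa; ring
  have e6 : P.pb i c b = c + ((b:ℤ) - 1) * 2^(P.Hd i 1) := rfl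
  rw [hBB] at h3 h4
  refine ⟨⟨?_, ?_⟩, ?_, ?_⟩
  · linarith [hj.1]
  · linarith [hj.2]
  · linarith [hj.1]
  · linarith [hj.2]

theorem NC_congr {n i : ℕ} (hi : i + 1 ≤ P.k) (c : ℤ) (x y : ℤ → E n) (h : ∀ j ∈ P.D i c, x j = y j) :
    x ∈ P.NC n i c ↔ y ∈ P.NC n i c := by
  have key : ∀ x y : ℤ → E n, (∀ j ∈ P.D i c, x j = y j) → x ∈ P.NC n i c → y ∈ P.NC n i c := by
    intro x y h hx
    unfold NC at hx ⊢
    simp only [Set.mem_iUnion] at hx ⊢
    obtain ⟨ab, hab, hx⟩ := hx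
    refine ⟨ab, hab, ?_⟩
    rw [Finset.mem_filter, Finset.mem_product, Finset.mem_range, Finset.mem_range] at hab
    obtain ⟨⟨ha, hb⟩, h1, h2, h3⟩ := hab
    have hsub := P.Ico_sub hi ha hb h2 h3
    have hpos : (0:ℤ) < 2^(P.Hc i) := by positivity
    have hle : P.pa i c ab.1 ≤ P.pb i c ab.2 := by linarith
    simp only [Set.mem_ofPred_eq] at hx ⊢
    rw [S_sub _ hle] at hx ⊢
    rwa [← Finset.sum_congr rfl fun j hj => h j (hsub hj)]
  exact ⟨key x y h, key y x fun j hj => (h j hj).symm⟩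

/-- **a given time is a cut time with large probability** -/
theorem Q_NC {n : ℕ} (hn : 11 ≤ n) (i : ℕ) (hi : i + 1 ≤ P.k) (c : ℤ) (x : ℤ → E n) :
    Q n P.v (P.D i c) (P.NC n i c) x ≤ ENNReal.ofReal ((1/2 : ℝ)^10) := by
  obtain ⟨e, e1, e2, e3, e4, e5, e6, e7, e8⟩ := P.scales hi
  have hr1 := P.r_pos (show 1 ≤ n by omega) (i+1)
  unfold NC
  refine (Q_biUnion P.v _ _ _ x).trans ?_
  have hstep : ∀ ab ∈ ((Finset.range P.BB) ×ˢ (Finset.range P.BB)).filter (fun ab : ℕ × ℕ =>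
      (2:ℤ)^(P.Hc i) ≤ P.pb i c ab.2 - P.pa i c ab.1 ∧ -(P.w i : ℤ) ≤ P.pa i c ab.1 ∧
      P.pb i c ab.2 ≤ P.w i),
      Q n P.v (P.D i c) {x | ‖S x (P.pb i c ab.2) - S x (P.pa i c ab.1)‖ ≤ 7 * P.r n (i+1)} x ≤
      ENNReal.ofReal ((1/2 : ℝ)^12 * ((1 / ((ab.1:ℝ)+1)^2) * (1 / ((ab.2:ℝ)+1)^2))) := by
    rintro ⟨a, b⟩ hab
    rw [Finset.mem_filter, Finset.mem_product, Finset.mem_range, Finset.mem_range] at hab
    obtain ⟨⟨ha, hb⟩, h1, h2, h3⟩ := hab
    simp only at ha hb h1 h2 h3 ⊢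
    have hsub := P.Ico_sub hi ha hb h2 h3
    have hpos : (0:ℤ) < 2^(P.Hc i) := by positivity
    have hle : P.pa i c a ≤ P.pb i c b := by linarith
    obtain ⟨z, hz⟩ : ∃ z : ℤ, z = (a:ℤ) + b - 2 := ⟨_, rfl⟩
    have hgap : P.pb i c b - P.pa i c a = z * 2^e := by rw [P.pa_pb, e1, hz]
    have hz1 : (2:ℤ)^(112 + 10*P.f) ≤ z := by
      rw [hgap, e2, pow_add, mul_comm z] at h1
      exact le_of_mul_le_mul_left h1 (by positivity)
    obtain ⟨zr, hzr⟩ : ∃ zr : ℝ, zr = (z : ℝ) := ⟨_, rfl⟩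
    have hz2 : (2:ℝ)^(112 + 10*P.f) ≤ zr := by rw [hzr]; exact_mod_cast hz1
    have hz3 : zr = (a:ℝ) + b - 2 := by rw [hzr, hz]; push_cast; ring
    have h43 : (2:ℝ)^43 ≤ 2^(112 + 10*P.f) := pow_le_pow_right₀ (by norm_num) (by omega)
    have hz4 : (2:ℝ)^43 ≤ zr := h43.trans hz2
    have hz0 : 0 < zr := lt_of_lt_of_le (by positivity) hz4
    have hcard : P.D i c ∩ Finset.Ico (P.pa i c a) (P.pb i c b) = Finset.Ico (P.pa i c a) (P.pb i c b) :=
      Finset.inter_eq_right.mpr hsub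
    have hcard2 : ((Finset.Ico (P.pa i c a) (P.pb i c b)).card : ℝ) = zr * 2^e := by
      rw [Int.card_Ico, hgap]
      have h4 : (((z * 2^e).toNat : ℕ) : ℤ) = z * 2^e := Int.toNat_of_nonneg (by
        have : 0 ≤ z := le_trans (by positivity) hz1
        positivity)
      have h5 : (((z * 2^e).toNat : ℕ) : ℝ) = ((z * 2^e : ℤ) : ℝ) := by exact_mod_cast h4
      rw [h5, hzr]
      push_cast
      rfl
    have hm0 : 0 < Real.sqrt zr / 2^(10 + P.f) := by positivity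
    have hmsq : (Real.sqrt zr / 2^(10 + P.f))^2 = zr / 2^(20 + 2*P.f) := by
      rw [div_pow, Real.sq_sqrt hz0.le, ← pow_mul]
      congr 2
      ring
    refine (Q_small P.v (P.D i c) hle (7 * P.r n (i+1)) (zr * 2^e * P.v) (Real.sqrt zr / 2^(10 + P.f)) hm0
      (by positivity) ?_ ?_ x).trans ?_
    · rw [hcard, hcard2]
    · rw [hmsq, mul_pow, P.r_sq]
      have hv : (2:ℝ)^e * P.v = 1 / (2^(2*P.β*(i+1)) * 2^(12 + 2*P.f)) := by
        unfold v
        push_cast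
        have : P.N = 2*P.β*(i+1) + (12 + 2*P.f) + e := by omega
        rw [this, pow_add _ _ e, pow_add]
        field_simp
      rw [mul_assoc zr, hv]
      have h4 : (0:ℝ) < 2^(2*P.β*(i+1)) := by positivity
      have h5 : (0:ℝ) < 2^(2*P.f) := by positivity
      rw [pow_add 2 20, pow_add 2 12]
      have e10 : 3 * (zr / (2^20 * 2^(2*P.f))) * (7^2 * (n / 2^(2*P.β*(i+1)))) =
          (147 / 2^20) * (n * (zr / (2^(2*P.β*(i+1)) * 2^(2*P.f)))) := by
        field_simp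
        norm_num
      have e11 : (n:ℝ) * (zr * (1 / (2^(2*P.β*(i+1)) * (2^12 * 2^(2*P.f))))) =
          (1 / 2^12) * (n * (zr / (2^(2*P.β*(i+1)) * 2^(2*P.f)))) := by
        field_simp
      rw [e10, e11]
      apply mul_le_mul_of_nonneg_right (by norm_num)
      positivity
    · apply ENNReal.ofReal_le_ofReal
      have h20 : (2:ℝ)^(20 + 2*P.f) ≤ 2^(112 + 10*P.f) := pow_le_pow_right₀ (by norm_num) (by omega)
      have hm1 : 1 / (Real.sqrt zr / 2^(10 + P.f)) ≤ 1 := by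
        rw [div_le_one hm0]
        by_contra hcon
        push Not at hcon
        have h6 : (Real.sqrt zr / 2^(10 + P.f))^2 < 1 := by
          have := pow_lt_pow_left₀ hcon hm0.le (two_ne_zero)
          rwa [one_pow] at this
        rw [hmsq, div_lt_one (by positivity)] at h6
        linarith
      have h6 : (1 / (Real.sqrt zr / 2^(10 + P.f)))^n ≤ (1 / (Real.sqrt zr / 2^(10 + P.f)))^10 :=
        pow_le_pow_of_le_one (by positivity) hm1 (by omega)
      have h7 : (1 / (Real.sqrt zr / 2^(10 + P.f)))^10 = (2^(20 + 2*P.f) / zr)^5 := by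
        have : (1 / (Real.sqrt zr / 2^(10 + P.f)))^10 = (1 / (Real.sqrt zr / 2^(10 + P.f))^2)^5 := by
          rw [one_div, one_div, inv_pow, inv_pow, ← pow_mul]
        rw [this, hmsq, one_div_div]
      have h8 : ((2:ℝ)^(20 + 2*P.f) / zr)^5 ≤ (1/2)^12 / zr^4 := by
        rw [div_pow, div_le_div_iff₀ (by positivity) (by positivity)]
        have h9 : ((2:ℝ)^(20 + 2*P.f))^5 = (1/2)^12 * (2:ℝ)^(112 + 10*P.f) := by
          rw [← pow_mul]
          have : 112 + 10*P.f = 12 + (20 + 2*P.f)*5 := by ring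
          rw [this, pow_add 2 12, ← mul_assoc, ← mul_pow]
          norm_num
        rw [h9]
        calc (1/2:ℝ)^12 * (2:ℝ)^(112 + 10*P.f) * zr^4 ≤ (1/2:ℝ)^12 * zr * zr^4 := by gcongr
          _ = _ := by ring
      have h9 : (1/2:ℝ)^12 / zr^4 ≤ (1/2)^12 * ((1 / ((a:ℝ)+1)^2) * (1 / ((b:ℝ)+1)^2)) := by
        rw [div_eq_mul_one_div]
        apply mul_le_mul_of_nonneg_left _ (by positivity)
        rw [one_div_mul_one_div, ← mul_pow]
        apply one_div_le_one_div_of_le (by positivity)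
        have ha0 : (0:ℝ) ≤ a := Nat.cast_nonneg _
        have hb0 : (0:ℝ) ≤ b := Nat.cast_nonneg _
        have h11 : ((a:ℝ)+1) * ((b:ℝ)+1) ≤ zr^2 := by
          have h12 : (a:ℝ) + b = zr + 2 := by linarith
          have h13 : (4:ℝ) ≤ zr := le_trans (by norm_num) hz4
          nlinarith [sq_nonneg ((a:ℝ) - b)]
        calc (((a:ℝ)+1) * ((b:ℝ)+1))^2 ≤ (zr^2)^2 := pow_le_pow_left₀ (by positivity) h11 2
          _ = zr^4 := by ring
      rw [h7] at h6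
      exact h6.trans (h8.trans h9)
  refine (Finset.sum_le_sum hstep).trans ?_
  rw [← ENNReal.ofReal_sum_of_nonneg (fun p _ => by positivity)]
  apply ENNReal.ofReal_le_ofReal
  refine (Finset.sum_le_sum_of_subset_of_nonneg (Finset.filter_subset _ _)
    (fun p _ _ => by positivity)).trans ?_
  rw [← Finset.mul_sum, Finset.sum_product]
  simp_rw [← Finset.mul_sum]
  rw [← Finset.sum_mul]
  have h1 := sum_inv_sq P.BB
  have h0 : (0:ℝ) ≤ ∑ a ∈ Finset.range P.BB, 1 / ((a:ℝ)+1)^2 := Finset.sum_nonneg fun _ _ => by positivity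
  calc (1/2:ℝ)^12 * ((∑ a ∈ Finset.range P.BB, 1 / ((a:ℝ)+1)^2) * ∑ a ∈ Finset.range P.BB, 1 / ((a:ℝ)+1)^2)
      ≤ (1/2:ℝ)^12 * (2 * 2) := by gcongr
    _ = _ := by norm_num

/-- half of the number of the independent times in an interval -/
def nh : ℕ := 2^(8*P.h - 27 - 2*P.f)

/-- number of the classes -/
def TT : ℕ := 2^(P.b - 99 - 8*P.f)

/-- number of the intervals on one side -/
def MM : ℕ := 2^(P.b + 24 + 2*P.f)

/-- the possible cut times -/
def pt (i : ℕ) (m : ℤ) (r t : ℕ) : ℤ := m * 2^(P.HJ i) + r * 2^(P.HG i) + t * 2^(P.HL i + 2)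

/-- the indices of the intervals -/
noncomputable def Ms : Finset ℤ := (Finset.Ico (-(P.MM : ℤ)) P.MM).filter fun m => m ≠ 0 ∧ m ≠ -1

/-- too few cut times in a class -/
def CL (n i : ℕ) (m : ℤ) (r : ℕ) : Set (ℤ → E n) :=
  ⋃ T ∈ Finset.powersetCard P.nh (Finset.range (2*P.nh)), ⋂ t ∈ T, P.NC n i (P.pt i m r t)

/-- too few cut times in an interval -/
def CUT (n i : ℕ) : Set (ℤ → E n) :=
  ⋃ mr ∈ P.Ms ×ˢ (Finset.range P.TT), P.CL n i mr.1 mr.2

theorem measurable_CL (n i : ℕ) (m : ℤ) (r : ℕ) : MeasurableSet (P.CL n i m r) := by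
  unfold CL
  exact Finset.measurableSet_biUnion _ fun T _ => Finset.measurableSet_biInter _ fun t _ =>
    P.measurable_NC n i _

theorem measurable_CUT (n i : ℕ) : MeasurableSet (P.CUT n i) := by
  unfold CUT
  exact Finset.measurableSet_biUnion _ fun mr _ => P.measurable_CL n i _ _

theorem pt_range {i : ℕ} (hi : i + 1 ≤ P.k) (m : ℤ) {r t : ℕ} (hr : r < P.TT) (ht : t < 2 * P.nh) :
    m * 2^(P.HJ i) ≤ P.pt i m r t ∧ P.pt i m r t + 2^(P.HG i) ≤ (m+1) * 2^(P.HJ i) := by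
  obtain ⟨e, e1, e2, e3, e4, e5, e6, e7, e8⟩ := P.scales hi
  have hβ := P.hβ
  obtain ⟨bh1, bh2, bh3⟩ := P.bh
  have h1 : ((r:ℤ) + 1) * 2^(P.HG i) ≤ 2^(P.HL i + 2) := by
    have h2 : (r:ℤ) + 1 ≤ P.TT := by exact_mod_cast hr
    have h3 : (P.TT : ℤ) * 2^(P.HG i) = 2^(P.HL i + 2) := by
      unfold TT
      push_cast
      rw [← pow_add]
      congr 1
      omega
    rw [← h3]
    exact mul_le_mul_of_nonneg_right h2 (by positivity)
  have h4 : ((t:ℤ) + 1) * 2^(P.HL i + 2) ≤ 2^(P.HJ i) := by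
    have h2 : (t:ℤ) + 1 ≤ ((2 * P.nh : ℕ) : ℤ) := by exact_mod_cast ht
    have h3 : ((2 * P.nh : ℕ) : ℤ) * 2^(P.HL i + 2) = 2^(P.HJ i) := by
      unfold nh
      push_cast
      rw [← pow_succ', ← pow_add]
      congr 1
      omega
    rw [← h3]
    exact mul_le_mul_of_nonneg_right h2 (by positivity)
  have h5 : (0:ℤ) < 2^(P.HG i) := by positivity
  have h6 : (0:ℤ) < 2^(P.HL i + 2) := by positivity
  have h7 : (0:ℤ) ≤ (r:ℤ) * 2^(P.HG i) := by positivity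
  have h8 : (0:ℤ) ≤ (t:ℤ) * 2^(P.HL i + 2) := by positivity
  unfold pt
  constructor
  · linarith
  · nlinarith

theorem D_sub {i : ℕ} (hi : i + 1 ≤ P.k) {m : ℤ} (hm : m ≠ 0 ∧ m ≠ -1) {r t : ℕ} (hr : r < P.TT)
    (ht : t < 2 * P.nh) : P.D i (P.pt i m r t) ⊆ P.A i := by
  obtain ⟨e, e1, e2, e3, e4, e5, e6, e7, e8⟩ := P.scales hi
  have hβ := P.hβ
  obtain ⟨bh1, bh2, bh3⟩ := P.bh
  obtain ⟨h1, h2⟩ := P.pt_range hi m hr ht
  have hG : (0:ℤ) < 2^(P.HG i) := by positivity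
  have hJL : (4:ℤ) * 2^(P.HL i) ≤ 2^(P.HJ i) := by
    have : (4:ℤ) * 2^(P.HL i) = 2^(P.HL i + 2) := by rw [pow_add]; ring
    rw [this]
    exact pow_le_pow_right₀ (by norm_num) (by omega)
  have hw : (P.w (i+2) : ℤ) ≤ 2^(P.HL i) := by
    have h3 : P.w (i+2) ≤ 2^(P.HL i) := by
      unfold w HL
      apply Nat.pow_le_pow_right (by norm_num)
      have := Nat.mul_le_mul_left (2*P.β) (show i + 1 ≤ i + 2 by omega)
      omega
    exact_mod_cast h3
  intro j hj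
  unfold D at hj
  rw [Finset.mem_inter, Finset.mem_Ico] at hj
  unfold A
  rw [Finset.mem_sdiff]
  refine ⟨hj.2, ?_⟩
  unfold W
  rw [Finset.mem_Ico]
  intro hcon
  have hJ0 : (0:ℤ) < 2^(P.HJ i) := by positivity
  rcases le_or_gt 1 m with h3 | h3
  · have h4 : 1 * (2:ℤ)^(P.HJ i) ≤ m * 2^(P.HJ i) := mul_le_mul_of_nonneg_right h3 hJ0.le
    linarith [hj.1.1, hcon.2]
  · have h5 : m + 1 ≤ -1 := by omega
    have h4 : (m+1) * 2^(P.HJ i) ≤ (-1) * (2:ℤ)^(P.HJ i) := mul_le_mul_of_nonneg_right h5 hJ0.le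
    linarith [hj.1.2, hcon.1]

theorem thirty_le_two_pow : ∀ h : ℕ, 8 ≤ h → 30 * h ≤ 2^h := by
  intro h hh
  induction h, hh using Nat.le_induction with
  | base => norm_num
  | succ h hh ih => rw [pow_succ]; omega

theorem nh_ge : 3 * P.β ≤ P.nh := by
  obtain ⟨bh1, bh2, bh3⟩ := P.bh
  unfold nh
  calc 3 * P.β = 30 * P.h := by rw [bh2]; ring
    _ ≤ 2^P.h := thirty_le_two_pow _ (by omega)
    _ ≤ _ := Nat.pow_le_pow_right (by norm_num) (by omega)

/-- **probability of too few cut times** -/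
theorem Q_CUT {n : ℕ} (hn : 11 ≤ n) (i : ℕ) (hi : i + 1 ≤ P.k) (x : ℤ → E n) :
    Q n P.v (P.A i) (P.CUT n i) x ≤ ENNReal.ofReal ((1/2 : ℝ)^(P.e+5)) := by
  obtain ⟨e, e1, e2, e3, e4, e5, e6, e7, e8⟩ := P.scales hi
  have hβ := P.hβ
  obtain ⟨bh1, bh2, bh3⟩ := P.bh
  have hβg := P.hβg
  have hele := P.e_le
  have hnh := P.nh_ge
  unfold CUT
  refine P.Q_balls (P.A i) _ _ x (2*P.b) (8 * P.nh) _ ?_ ?_ (by omega)
  · rw [Finset.card_product, Finset.card_range]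
    have h1 : P.Ms.card ≤ 2 * P.MM := by
      unfold Ms
      refine (Finset.card_filter_le _ _).trans ?_
      rw [Int.card_Ico]
      omega
    have h2 : P.Ms.card * P.TT ≤ 2^(2*P.b) := by
      calc P.Ms.card * P.TT ≤ (2 * P.MM) * P.TT := Nat.mul_le_mul_right _ h1
        _ = 2^(1 + (P.b + 24 + 2*P.f) + (P.b - 99 - 8*P.f)) := by
            unfold MM TT
            rw [pow_add 2 (1 + (P.b + 24 + 2*P.f)), pow_add 2 1 (P.b + 24 + 2*P.f), pow_one]
        _ ≤ _ := Nat.pow_le_pow_right (by norm_num) (by omega)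
    exact_mod_cast h2
  · rintro ⟨m, r⟩ hmr
    rw [Finset.mem_product, Finset.mem_range] at hmr
    obtain ⟨hm, hr⟩ := hmr
    unfold Ms at hm
    rw [Finset.mem_filter] at hm
    unfold CL
    refine (Q_many P.v (fun t => P.D i (P.pt i m r t)) (fun t => P.NC n i (P.pt i m r t))
      (fun t => P.measurable_NC n i _) (fun t x y h => P.NC_congr hi _ x y h)
      (ENNReal.ofReal ((1/2 : ℝ)^10)) P.nh (fun t _ x => P.Q_NC hn i hi _ x) ?_ (P.A i)
      (fun t ht => P.D_sub hi hm.2 hr ht) x).trans ?_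
    · intro t ht t' ht' hne
      have hpos : (0:ℤ) < 2^(P.HL i) := by positivity
      have key : ∀ t t' : ℕ, t < t' → Disjoint (P.D i (P.pt i m r t)) (P.D i (P.pt i m r t')) := by
        intro t t' h
        rw [Finset.disjoint_left]
        intro j hj hj'
        unfold D at hj hj'
        rw [Finset.mem_inter, Finset.mem_Ico] at hj hj'
        have h1 : ((t:ℤ) + 1) * 2^(P.HL i + 2) ≤ t' * 2^(P.HL i + 2) :=
          mul_le_mul_of_nonneg_right (by exact_mod_cast h) (by positivity)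
        have h2 : (2:ℤ)^(P.HL i + 2) = 4 * 2^(P.HL i) := by rw [pow_add]; ring
        have h3 : P.pt i m r t + 4 * 2^(P.HL i) ≤ P.pt i m r t' := by
          unfold pt
          rw [h2] at h1 ⊢
          linarith
        linarith [hj.1.2, hj'.1.1]
      rcases lt_or_gt_of_ne hne with h | h
      · exact key t t' h
      · exact (key t' t h).symm
    · have e9 : (2:ℝ≥0∞) = ENNReal.ofReal 2 := by norm_num
      rw [e9, ← ENNReal.ofReal_pow (by norm_num), ← ENNReal.ofReal_pow (by positivity),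
        ← ENNReal.ofReal_mul (by positivity)]
      apply ENNReal.ofReal_le_ofReal
      rw [← pow_mul]
      exact pow_cmp (by omega)

theorem CUT_congr {n i : ℕ} (hi : i + 1 ≤ P.k) {x y : ℤ → E n} (h : ∀ j ∈ P.W i, x j = y j) :
    x ∈ P.CUT n i ↔ y ∈ P.CUT n i := by
  have hNC : ∀ c, x ∈ P.NC n i c ↔ y ∈ P.NC n i c := by
    intro c
    apply P.NC_congr hi c
    intro j hj
    apply h
    unfold D at hj
    exact (Finset.mem_inter.mp hj).2
  unfold CUT CL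
  simp only [Set.mem_iUnion, Set.mem_iInter, hNC]

end Pa

end Pool.Agent.H27.CD
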