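import Pool.Agent.H27.CD.Cut

/-!
The events of a block, and their conditional probabilities.
-/

set_option autoImplicit false

namespace Pool.Agent.H27.CD

open Pool.Agent.R966.CD
open MeasureTheory ProbabilityTheory
open scoped NNReal ENNReal

namespace Pa

variable (P : Pa)

/-- block `i` spoils the level `i` -/
def Fown (n i : ℕ) : Set (ℤ → E n) :=
  ((OE n (P.w (i+1)) (P.w i) (P.Hk i) (P.r n i / 32) ∪
    OE n (P.w (i+1)) (P.w i) (P.Hd i 1) (P.r n (i+1))) ∪ (P.SBp n i ∪ P.SBc n i)) ∪ P.CUT n i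

/-- the event of the block `i`: scale `l` for the spoiled level `i + l`, scale `50 l` for the spoiled
level `i - l`, scale one for the own level, scale `l + 1` if the own level and the level `i + l` are
spoiled -/
def F (n i l : ℕ) : Set (ℤ → E n) :=
  ((if i + l ≤ P.k then P.Fdown n i l else ∅) ∪ (if 50 ∣ l then P.Fup n i (l/50) else ∅)) ∪
  ((if l = 1 then P.Fown n i else ∅) ∪
    (if 2 ≤ l ∧ i + (l - 1) ≤ P.k then P.Fown n i ∩ P.Fdown n i (l - 1) else ∅))

/-- the event of the core, scale `50 l` for the spoiled level `k - l` -/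
def Fc (n l : ℕ) : Set (ℤ → E n) := if 50 ∣ l then P.Fcore n (l/50) else ∅

theorem measurable_Fdown (n i l : ℕ) : MeasurableSet (P.Fdown n i l) := by
  unfold Fdown SBd
  refine MeasurableSet.union (measurable_OE _ _ _ _ _) ?_
  exact Finset.measurableSet_biUnion _ fun p _ => measurable_ball n _ _ _

theorem measurable_Fown (n i : ℕ) : MeasurableSet (P.Fown n i) := by
  unfold Fown SBp SBc
  refine MeasurableSet.union (MeasurableSet.union (MeasurableSet.union (measurable_OE _ _ _ _ _)
        (measurable_OE _ _ _ _ _)) (MeasurableSet.union ?_ ?_)) (P.measurable_CUT n i)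
  · exact Finset.measurableSet_biUnion _ fun p _ => measurable_ball n _ _ _
  · exact Finset.measurableSet_biUnion _ fun p _ => measurable_ball n _ _ _

theorem measurable_F (n i l : ℕ) : MeasurableSet (P.F n i l) := by
  unfold F
  refine MeasurableSet.union (MeasurableSet.union ?_ ?_) (MeasurableSet.union ?_ ?_)
  · split
    · exact P.measurable_Fdown n i l
    · exact MeasurableSet.empty
  · split
    · exact measurable_OE _ _ _ _ _
    · exact MeasurableSet.empty
  · split
    · exact P.measurable_Fown n i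
    · exact MeasurableSet.empty
  · split
    · exact (P.measurable_Fown n i).inter (P.measurable_Fdown n i _)
    · exact MeasurableSet.empty

theorem measurable_Fc (n l : ℕ) : MeasurableSet (P.Fc n l) := by
  unfold Fc
  split
  · exact P.measurable_Fcore n _
  · exact MeasurableSet.empty

/-- probability of a spoiled level below -/
theorem Q_Fdown {n : ℕ} (hn : 11 ≤ n) (i l : ℕ) (hl : 1 ≤ l) (hil : i + l ≤ P.k) (x : ℤ → E n) :
    Q n P.v (P.A i) (P.Fdown n i l) x ≤
      ENNReal.ofReal ((1/2 : ℝ)^((P.e+5)*(l+1)) + (1/2 : ℝ)^((P.e+5)*(l+1))) := by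
  unfold Fdown
  rw [ENNReal.ofReal_add (by positivity) (by positivity)]
  exact (Q_union _ _ _ _ x).trans
    (add_le_add (P.Q_OEd hn i l hl hil x) (P.Q_SBd hn i l hl hil x))

/-- probability of a spoiled own level -/
theorem Q_Fown {n : ℕ} (hn : 11 ≤ n) (i : ℕ) (hi : i + 1 ≤ P.k) (x : ℤ → E n) (ε : ℝ)
    (hε : ε = (1/2 : ℝ)^(P.e+5)) :
    Q n P.v (P.A i) (P.Fown n i) x ≤ ENNReal.ofReal (((ε + ε) + (ε + ε)) + ε) := by
  have hε0 : 0 ≤ ε := by rw [hε]; positivity
  have c1 := P.Q_osc hn i hi x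
  have c2 := P.Q_OEd hn i 1 le_rfl (by omega) x
  have c3 := P.Q_SBp hn i hi x
  have c4 := P.Q_SBc hn i hi x
  have c5 := P.Q_CUT hn i hi x
  have c2' : Q n P.v (P.A i) (OE n (P.w (i+1)) (P.w i) (P.Hd i 1) (P.r n (i+1))) x ≤
      ENNReal.ofReal ((1/2 : ℝ)^(P.e+5)) := by
    refine c2.trans (ENNReal.ofReal_le_ofReal ?_)
    apply pow_le_pow_of_le_one (by norm_num) (by norm_num)
    omega
  rw [← hε] at c1 c2' c3 c4 c5
  unfold Fown
  rw [ENNReal.ofReal_add (by positivity) hε0, ENNReal.ofReal_add (by positivity) (by positivity),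
    ENNReal.ofReal_add hε0 hε0]
  refine (Q_union _ _ _ _ x).trans (add_le_add ?_ c5)
  refine (Q_union _ _ _ _ x).trans (add_le_add ?_ ?_)
  · exact (Q_union _ _ _ _ x).trans (add_le_add c1 c2')
  · exact (Q_union _ _ _ _ x).trans (add_le_add c3 c4)

/-- **conditional probabilities of the events of a block** -/
theorem Q_F {n : ℕ} (hn : 11 ≤ n) (i l : ℕ) (hl : 1 ≤ l) (hi : i + 1 ≤ P.k) (x : ℤ → E n) :
    Q n P.v (P.A i) (P.F n i l) x ≤ ENNReal.ofReal (((1/2 : ℝ)^(P.e+1))^l) := by
  unfold F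
  obtain ⟨ε, hε⟩ : ∃ ε : ℝ, ε = (1/2 : ℝ)^((P.e+5)*l) := ⟨_, rfl⟩
  have hε0 : 0 ≤ ε := by rw [hε]; positivity
  have b1 : Q n P.v (P.A i) (if i + l ≤ P.k then P.Fdown n i l else ∅) x ≤ ENNReal.ofReal (ε + ε) := by
    split
    · rename_i hil
      refine (P.Q_Fdown hn i l hl hil x).trans (ENNReal.ofReal_le_ofReal ?_)
      have h1 : (1/2 : ℝ)^((P.e+5)*(l+1)) ≤ ε := by
        rw [hε]
        apply pow_le_pow_of_le_one (by norm_num) (by norm_num)
        exact Nat.mul_le_mul_left _ (by omega)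
      linarith
    · unfold Q
      simp
  have b2 : Q n P.v (P.A i) (if 50 ∣ l then P.Fup n i (l/50) else ∅) x ≤ ENNReal.ofReal ε := by
    split
    · rename_i h
      have h1 := P.Q_Fup hn i (l/50) (by omega) (by omega) x
      have h2 : 50 * (l/50) = l := by omega
      rw [h2] at h1
      rw [hε]
      exact h1
    · unfold Q
      simp
  have b3 : Q n P.v (P.A i) (if l = 1 then P.Fown n i else ∅) x ≤
      ENNReal.ofReal (((ε + ε) + (ε + ε)) + ε) := by
    split
    · rename_i h
      subst h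
      rw [mul_one] at hε
      exact P.Q_Fown hn i hi x ε hε
    · unfold Q
      simp
  have b4 : Q n P.v (P.A i)
      (if 2 ≤ l ∧ i + (l - 1) ≤ P.k then P.Fown n i ∩ P.Fdown n i (l - 1) else ∅) x ≤
      ENNReal.ofReal (ε + ε) := by
    split
    · rename_i h
      refine (Q_mono _ _ Set.inter_subset_right x).trans ?_
      have h1 := P.Q_Fdown hn i (l - 1) (by omega) h.2 x
      have h2 : l - 1 + 1 = l := by omega
      rw [h2, ← hε] at h1
      exact h1
    · unfold Q
      simp
  refine (Q_union _ _ _ _ x).trans ?_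
  refine (add_le_add ((Q_union _ _ _ _ x).trans (add_le_add b1 b2))
    ((Q_union _ _ _ _ x).trans (add_le_add b3 b4))).trans ?_
  rw [← ENNReal.ofReal_add (by positivity) (by positivity),
    ← ENNReal.ofReal_add (by positivity) (by positivity),
    ← ENNReal.ofReal_add (by positivity) (by positivity)]
  apply ENNReal.ofReal_le_ofReal
  have e0 : ((1/2:ℝ)^(P.e+1))^l = (1/2:ℝ)^((P.e+1)*l) := by rw [← pow_mul]
  have e1 : ε + ε + ε + (ε + ε + (ε + ε) + ε + (ε + ε)) ≤ 2^4 * ε := by linarith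
  rw [e0]
  refine e1.trans ?_
  rw [hε]
  apply pow_cmp
  have e2 : (P.e+5)*l = (P.e+1)*l + 4*l := by ring
  omega

/-- probabilities of the events of the core -/
theorem Q_Fc {n : ℕ} (hn : 11 ≤ n) (l : ℕ) (hl : 1 ≤ l) (x : ℤ → E n) :
    Q n P.v (P.W 0) (P.Fc n l) x ≤ ENNReal.ofReal (((1/2 : ℝ)^(P.e+1))^l) := by
  unfold Fc
  split
  · rename_i h
    have h1 := P.Q_Fcore hn (l/50) (by omega) x
    have h2 : 50 * (l/50) = l := by omega
    rw [h2] at h1
    refine h1.trans (ENNReal.ofReal_le_ofReal ?_)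
    rw [← pow_mul]
    apply pow_le_pow_of_le_one (by norm_num) (by norm_num)
    exact Nat.mul_le_mul_right _ (by omega)
  · unfold Q
    simp

end Pa

end Pool.Agent.H27.CD
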