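import Pool.Agent.H27.CD.BM2
import Pool.Graph.R_seed8.R966.CD.Upper

/-!
High-dimensional Brownian traces have conformal dimension one: the upper bound.
-/

set_option autoImplicit false

namespace Pool.Agent.H27.CD

open Pool.Agent.R966.CD
open Pool.Agent.K7.H80.CD2 (bc Cst2 det2)
open MeasureTheory ProbabilityTheory Filter Topology
open scoped NNReal ENNReal

theorem exists_prm (q : ℝ) (hq : 1 < q) (hq2 : q ≤ 2) :
    ∃ R : Prm, (127 + 10 * (R.f : ℝ)) * q + 3 ≤ 2 * R.β * (q - 1) := by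
  have h0 : 0 < q - 1 := by linarith
  obtain ⟨a, ha⟩ := pow_unbounded_of_one_lt (1 / (q - 1)) (show (1:ℝ) < 2 by norm_num)
  obtain ⟨f, hf⟩ : ∃ f : ℕ, f = a + 12 := ⟨_, rfl⟩
  obtain ⟨h, hh⟩ : ∃ h : ℕ, h = 4^(f-2) := ⟨_, rfl⟩
  have h1 : 4^f = 16 * h := by
    obtain ⟨f', hf'⟩ : ∃ f', f = f' + 2 := ⟨f - 2, by omega⟩
    rw [hh, hf', Nat.add_sub_cancel, pow_add]
    ring
  have h2 : 4096 ≤ 2^f := by
    calc 4096 = 2^12 := by norm_num
      _ ≤ 2^f := Nat.pow_le_pow_right (by norm_num) (by omega)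
  have h3 : f + 1 ≤ 2^f := Nat.lt_two_pow_self
  have h4 : 4^f = 2^f * 2^f := by rw [← mul_pow]; norm_num
  have h5 : 4096 * 2^f ≤ 2^f * 2^f := Nat.mul_le_mul_right _ h2
  refine ⟨⟨10 * h, 5 * h, h, f, by ring, rfl, by omega, by omega⟩, ?_⟩
  show (127 + 10 * (f : ℝ)) * q + 3 ≤ 2 * ((10 * h : ℕ) : ℝ) * (q - 1)
  have h1' : (16:ℝ) * h = 2^f * 2^f := by
    have : 16 * h = 2^f * 2^f := by rw [← h1, h4]
    exact_mod_cast this
  push_cast
  have h6 : 1 ≤ (2:ℝ)^f * (q - 1) := by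
    rw [div_lt_iff₀ h0] at ha
    have h7 : (2:ℝ)^a ≤ 2^f := pow_le_pow_right₀ (by norm_num) (by omega)
    nlinarith
  have h8 : ∀ f : ℕ, 12 ≤ f → 257 + 20 * f ≤ 2^f := by
    intro f hf
    induction f, hf using Nat.le_induction with
    | base => norm_num
    | succ f hf ih => rw [pow_succ]; omega
  have h9 : (257:ℝ) + 20 * f ≤ 2^f := by exact_mod_cast h8 f (by omega)
  have h10 : (0:ℝ) ≤ f := Nat.cast_nonneg _
  have h11 : (127 + 10 * (f : ℝ)) * q + 3 ≤ 257 + 20 * f := by nlinarith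
  have h12 : (2:ℝ)^f * 1 ≤ 2^f * ((2:ℝ)^f * (q - 1)) :=
    mul_le_mul_of_nonneg_left h6 (by positivity)
  have h13 : (0:ℝ) ≤ (h:ℝ) * (q - 1) := by positivity
  calc (127 + 10 * (f : ℝ)) * q + 3 ≤ 257 + 20 * f := h11
    _ ≤ 2^f * 1 := by rw [mul_one]; exact h9
    _ ≤ _ := h12
    _ = 16 * (h * (q - 1)) := by rw [← mul_assoc, ← h1']; ring
    _ ≤ 20 * (h * (q - 1)) := by linarith
    _ = _ := by ring

theorem cc_eq (R : Prm) : (cc R : ℝ) = (2^R.β)^2 / 2^(126 + 10*R.f) := by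
  unfold cc
  have h1 := R.hg
  have h2 := R.hβg
  have h3 := R.hgh
  push_cast
  rw [← pow_add, ← pow_mul, eq_div_iff (by positivity), ← pow_add]
  congr 1
  omega

/-- the constants -/
theorem cst2 (R : Prm) (n : ℕ) (hn : 1 ≤ n) : Cst2 (Real.sqrt n) (2^R.β)
    (2^(127 + 10*R.f) / (2^R.β)^2) (8 / 2^R.β) (cc R) := by
  have hn' : (0:ℝ) < n := by exact_mod_cast hn
  have hg := R.hg
  have hβg := R.hβg
  have h1 : (2:ℝ)^52 ≤ 2^R.β := pow_le_pow_right₀ (by norm_num) (by omega)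
  have h0 : (0:ℝ) < 2^R.β := by positivity
  obtain ⟨e, he⟩ : ∃ e, R.β = 124 + 10*R.f + e := ⟨R.β - (124 + 10*R.f), by omega⟩
  have h2 : (8 / (2:ℝ)^R.β) / (2^(127 + 10*R.f) / (2^R.β)^2) = 2^e := by
    have e1 : (2:ℝ)^(127 + 10*R.f) = 8 * 2^(124 + 10*R.f) := by
      have : 127 + 10*R.f = (124 + 10*R.f) + 3 := by ring
      rw [this, pow_add]; ring
    rw [e1, he, pow_add _ _ e]
    field_simp
  refine ⟨Real.sqrt_pos.mpr hn', ?_, by positivity, ?_, ?_, ?_, ?_, ?_⟩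
  · refine le_trans ?_ h1
    norm_num
  · have h3 : (1:ℝ) ≤ (8 / (2:ℝ)^R.β) / (2^(127 + 10*R.f) / (2^R.β)^2) := by
      rw [h2]; exact one_le_pow₀ (by norm_num)
    rwa [le_div_iff₀ (by positivity), one_mul] at h3
  · rw [div_lt_one h0]
    refine lt_of_lt_of_le ?_ h1
    norm_num
  · rw [div_mul_cancel₀ _ h0.ne']
  · rw [h2, Real.log_pow]
    have hlog : 0 < Real.log 2 := Real.log_pos (by norm_num)
    have h3 : (4:ℝ) * e ≤ 2^R.β - 1 := by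
      have h4 : (e:ℝ) + 1 ≤ 2^e := by exact_mod_cast Nat.lt_two_pow_self
      have h6 : (2:ℝ)^(52 + e) ≤ 2^R.β := pow_le_pow_right₀ (by norm_num) (by omega)
      rw [pow_add] at h6
      nlinarith
    calc 4 * ((e:ℝ) * Real.log 2) = (4 * e) * Real.log 2 := by ring
      _ ≤ _ := mul_le_mul_of_nonneg_right h3 hlog.le
  · rw [cc_eq]
    apply le_of_eq
    have : 127 + 10*R.f = (126 + 10*R.f) + 1 := by ring
    rw [this, pow_succ]
    field_simp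

theorem s_bound2 (β f : ℕ) (q : ℝ) (h : (127 + 10 * (f:ℝ)) * q + 3 ≤ 2 * β * (q - 1)) (k : ℕ) :
    (((2:ℝ)^(127 + 10*f) / (2^β)^2)^k)^q * (2^((2*β+1)*k) + 1) * 2^(k+2) ≤ 8 * (1/2)^k := by
  have h2 : (0:ℝ) < 2 := by norm_num
  have e1 : (2:ℝ)^(127 + 10*f) / (2^β)^2 = (2:ℝ)^((127:ℝ) + 10*f - 2*β) := by
    rw [Real.rpow_sub h2]
    congr 1
    · rw [← Real.rpow_natCast]
      congr 1
      push_cast
      ring
    · rw [← pow_mul, ← Real.rpow_natCast]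
      congr 1
      push_cast
      ring
  have e2 : (((2:ℝ)^(127 + 10*f) / (2^β)^2)^k)^q = (2:ℝ)^(((127:ℝ) + 10*f - 2*β)*q*k) := by
    rw [e1, ← Real.rpow_natCast, ← Real.rpow_mul h2.le, ← Real.rpow_mul h2.le]
    congr 1
    ring
  have e3 : (2:ℝ)^((2*β+1)*k) + 1 ≤ 2 * 2^((2*β+1)*k) := by
    have : (1:ℝ) ≤ 2^((2*β+1)*k) := one_le_pow₀ (by norm_num)
    linarith
  have e4 : (2:ℝ)^((2*β+1)*k) = (2:ℝ)^((2*(β:ℝ)+1)*k) := by
    rw [← Real.rpow_natCast]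
    congr 1
    push_cast
    ring
  have e5 : (2:ℝ)^(k+2) = 4 * (2:ℝ)^(k:ℝ) := by
    rw [pow_add, Real.rpow_natCast]
    ring
  have e6 : (1/2:ℝ)^k = (2:ℝ)^(-(k:ℝ)) := by
    rw [Real.rpow_neg h2.le, Real.rpow_natCast, one_div, inv_pow]
  have hpos1 : (0:ℝ) < (2:ℝ)^(((127:ℝ) + 10*f - 2*β)*q*k) := Real.rpow_pos_of_pos h2 _
  rw [e2, e5, e6]
  calc (2:ℝ)^(((127:ℝ) + 10*f - 2*β)*q*k) * (2^((2*β+1)*k) + 1) * (4 * (2:ℝ)^(k:ℝ))
      ≤ (2:ℝ)^(((127:ℝ) + 10*f - 2*β)*q*k) * (2 * 2^((2*β+1)*k)) * (4 * (2:ℝ)^(k:ℝ)) := by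
        gcongr
    _ = 8 * ((2:ℝ)^(((127:ℝ) + 10*f - 2*β)*q*k) * (2:ℝ)^((2*(β:ℝ)+1)*k) * (2:ℝ)^(k:ℝ)) := by
        rw [e4]; ring
    _ = 8 * (2:ℝ)^((((127:ℝ) + 10*f - 2*β)*q*k) + ((2*(β:ℝ)+1)*k) + (k:ℝ)) := by
        rw [← Real.rpow_add h2, ← Real.rpow_add h2]
    _ ≤ 8 * (2:ℝ)^(-(k:ℝ)) := by
        apply mul_le_mul_of_nonneg_left _ (by norm_num)
        apply Real.rpow_le_rpow_of_exponent_le (by norm_num)
        have hk : (0:ℝ) ≤ k := Nat.cast_nonneg _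
        have h3 : ((127:ℝ) + 10*f - 2*β)*q + (2*(β:ℝ)+1) + 1 + 1 ≤ 0 := by nlinarith
        nlinarith

/-- **upper bound** -/
theorem upper2 (q : ℝ≥0) (hq : 1 < q) (hq3 : q ≤ 51/50) (n : ℕ) (hn : 11 ≤ n) {Ω : Type*}
    [MeasurableSpace Ω] (P : Measure Ω) [IsProbabilityMeasure P] (B : ℝ≥0 → Ω → E n) (hB : IsBM P B) :
    ∀ᵐ ω ∂P, ∃ W : Wt (Tr (path B ω)), (∃ η : ℝ≥0 ≃ₜ ℝ≥0, ∀ (x a c : Tr (path B ω)) (t : ℝ≥0),
      dist x a ≤ t * dist x c →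
      dist (W.homeo x) (W.homeo a) ≤ η t * dist (W.homeo x) (W.homeo c)) ∧
      dimH (Set.univ : Set W.Y) ≤ q := by
  have hq' : (1:ℝ) < q := by exact_mod_cast hq
  have hq3' : (q:ℝ) ≤ 51/50 := by exact_mod_cast hq3
  have hq2' : (q:ℝ) ≤ 2 := by linarith
  obtain ⟨R, hβq⟩ := exists_prm q hq' hq2'
  have hg := R.hg
  have hβg := R.hβg
  obtain ⟨β, hβ⟩ : ∃ β, β = R.β := ⟨_, rfl⟩
  obtain ⟨s, hs⟩ : ∃ s : ℝ, s = 2^(127 + 10*R.f) / (2^R.β)^2 := ⟨_, rfl⟩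
  obtain ⟨τ, hτ⟩ : ∃ τ : ℝ, τ = 8 / 2^R.β := ⟨_, rfl⟩
  obtain ⟨cr, hcr⟩ : ∃ cr : ℝ, cr = (τ / s)^(q:ℝ) := ⟨_, rfl⟩
  have C : Cst2 (Real.sqrt n) (2^R.β) s τ (cc R) := by
    rw [hs, hτ]; exact cst2 R n (by omega)
  have hts : 1 ≤ τ / s := by
    rw [le_div_iff₀ C.hs, one_mul]; exact C.hsτ
  have hts2 : τ / s ≤ 2^R.β := by
    rw [hτ, hs, div_div_eq_mul_div, div_mul_eq_mul_div, div_div, div_le_iff₀ (by positivity)]
    have h1 : (8:ℝ) ≤ 2^(127 + 10*R.f) := by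
      calc (8:ℝ) = 2^3 := by norm_num
        _ ≤ _ := pow_le_pow_right₀ (by norm_num) (by omega)
    have h2 : (0:ℝ) < 2^R.β := by positivity
    calc 8 * ((2:ℝ)^R.β)^2 ≤ 2^(127 + 10*R.f) * ((2:ℝ)^R.β)^2 := by gcongr
      _ = _ := by ring
  have hcr1 : 1 ≤ cr := by rw [hcr]; exact Real.one_le_rpow hts q.2
  have hcr2 : cr ≤ 2^(2*R.g + R.g/20) := by
    have h2 : (0:ℝ) < 2 := by norm_num
    have h3 : (R.g : ℝ) ≤ 20 * ((R.g/20 : ℕ) : ℝ) + 20 := by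
      have : R.g ≤ 20 * (R.g/20) + 20 := by omega
      exact_mod_cast this
    have h4 : (1000:ℝ) ≤ R.g := by
      have : 1000 ≤ R.g := by omega
      exact_mod_cast this
    have h5 : (R.β : ℝ) = 2 * R.g := by rw [hβg]; push_cast; ring
    rw [hcr]
    calc (τ / s)^(q:ℝ) ≤ (2^R.β)^(q:ℝ) := Real.rpow_le_rpow (by linarith) hts2 q.2
      _ = (2:ℝ)^((R.β:ℝ) * q) := by rw [← Real.rpow_natCast, ← Real.rpow_mul h2.le]
      _ ≤ (2:ℝ)^((2*R.g + R.g/20 : ℕ) : ℝ) := by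
          apply Real.rpow_le_rpow_of_exponent_le (by norm_num)
          push_cast
          rw [h5]
          nlinarith
      _ = _ := Real.rpow_natCast _ _
  obtain ⟨c0, hc0⟩ : ∃ c0 : ℝ≥0∞, c0 = ENNReal.ofReal cr := ⟨_, rfl⟩
  have hc01 : 1 ≤ c0 := by rw [hc0, ← ENNReal.ofReal_one]; exact ENNReal.ofReal_le_ofReal hcr1
  have hc09 : c0 ≤ 2^(2*R.g + R.g/20) := by
    have e9 : (2:ℝ≥0∞) = ENNReal.ofReal 2 := by norm_num
    rw [hc0, e9, ← ENNReal.ofReal_pow (by norm_num)]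
    exact ENNReal.ofReal_le_ofReal hcr2
  -- the majorants
  have hmaj : ∀ k i : ℕ, ∃ H : Ω → ℝ≥0∞, Measurable H ∧ ∫⁻ ω, H ω ∂P ≤ 2^(k+2) ∧
      (i ≤ 2^((2*β+1)*k) → ∀ ω, (Continuous fun t => B t ω) →
      c0^(bc (path B ω) (Real.sqrt n) (2^R.β) (2^(12*R.h)) (1/2^(21 + 2*R.f)) (cc R) k
        ((i:ℝ)/2^((2*β+1)*k))) ≤ H ω) := by
    intro k i
    by_cases hi : i ≤ 2^((2*β+1)*k)
    · obtain ⟨H, h1, h2, h3⟩ := majorant2 hB hn R k ((2*β+1)*k) i hi c0 hc01 hc09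
      exact ⟨H, h1, h2, fun _ => h3⟩
    · exact ⟨fun _ => 0, measurable_const, by simp, fun h => absurd h hi⟩
  choose H hH1 hH2 hH3 using hmaj
  obtain ⟨k1, hk1⟩ : ∃ k1 : ℕ, k1 = max 4 (1152 * (2*β+1)) := ⟨_, rfl⟩
  have hk1' : ∀ k, k1 ≤ k → 1 ≤ k ∧ 1152 * ((2*β+1)*k) ≤ 2^k := by
    intro k hk
    have h4 : 4 ≤ k := le_trans (le_trans (le_max_left _ _) hk1.ge) hk
    have h5 : 1152 * (2*β+1) ≤ k := le_trans (le_trans (le_max_right _ _) hk1.ge) hk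
    refine ⟨by omega, le_trans ?_ (sq_le_two_pow k h4)⟩
    rw [← mul_assoc]
    exact Nat.mul_le_mul_right _ h5
  have hcov : ∀ k : ℕ, ∃ H : Ω → ℝ≥0∞, Measurable H ∧ ∫⁻ ω, H ω ∂P ≤ ENNReal.ofReal (2 * (1/2)^k) ∧
      (k1 ≤ k → ∀ ω, (Continuous fun t => B t ω) →
      (∃ u ∈ Set.Icc (0:ℝ) 1, Real.sqrt n / ((2:ℝ)^β)^k <
        dist (path B ω ((⌊u * 2^((2*β+1)*k)⌋₊ : ℝ) / 2^((2*β+1)*k))) (path B ω u)) → 1 ≤ H ω) := by
    intro k
    by_cases hk : k1 ≤ k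
    · obtain ⟨H, h1, h2, h3⟩ := cover_majorant hB (by omega) β k ((2*β+1)*k) (hk1' k hk).1 rfl
        (hk1' k hk).2
      exact ⟨H, h1, h2, fun _ => h3⟩
    · exact ⟨fun _ => 0, measurable_const, by simp, fun h => absurd h hk⟩
  choose H' hH'1 hH'2 hH'3 using hcov
  obtain ⟨A, hA⟩ : ∃ A : ℕ → Ω → ℝ≥0∞, A = fun k ω => ENNReal.ofReal ((s^k)^(q:ℝ)) *
      ∑ i ∈ Finset.range (2^((2*β+1)*k) + 1), H k i ω + H' k ω := ⟨_, rfl⟩
  have hAm : ∀ k, Measurable (A k) := by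
    intro k
    rw [hA]
    exact ((Finset.measurable_fun_sum _ fun i _ => hH1 k i).const_mul _).add (hH'1 k)
  have hAint : ∀ k, ∫⁻ ω, A k ω ∂P ≤ ENNReal.ofReal (10 * (1/2)^k) := by
    intro k
    have h1 : ∫⁻ ω, A k ω ∂P = ENNReal.ofReal ((s^k)^(q:ℝ)) *
        ∑ i ∈ Finset.range (2^((2*β+1)*k) + 1), ∫⁻ ω, H k i ω ∂P + ∫⁻ ω, H' k ω ∂P := by
      rw [hA]
      rw [lintegral_add_right _ (hH'1 k), lintegral_const_mul _
        (Finset.measurable_fun_sum _ fun i _ => hH1 k i), lintegral_finsetSum _ fun i _ => hH1 k i]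
    rw [h1]
    have h2 : ∑ i ∈ Finset.range (2^((2*β+1)*k) + 1), ∫⁻ ω, H k i ω ∂P ≤
        ENNReal.ofReal ((2^((2*β+1)*k) + 1) * 2^(k+2)) := by
      refine (Finset.sum_le_sum fun i _ => hH2 k i).trans (le_of_eq ?_)
      rw [Finset.sum_const, Finset.card_range, nsmul_eq_mul, ENNReal.ofReal_mul (by positivity)]
      congr 1
      · rw [← ENNReal.ofReal_natCast]
        congr 1
        push_cast
        ring
      · rw [ENNReal.ofReal_pow (by norm_num)]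
        norm_num
    have h3 : ENNReal.ofReal ((s^k)^(q:ℝ)) * ENNReal.ofReal ((2^((2*β+1)*k) + 1) * 2^(k+2)) ≤
        ENNReal.ofReal (8 * (1/2)^k) := by
      rw [← ENNReal.ofReal_mul (by have := C.hs; positivity)]
      apply ENNReal.ofReal_le_ofReal
      have := s_bound2 R.β R.f q hβq k
      rw [← hs, ← hβ] at this
      rwa [← mul_assoc]
    calc _ ≤ ENNReal.ofReal ((s^k)^(q:ℝ)) * ENNReal.ofReal ((2^((2*β+1)*k) + 1) * 2^(k+2)) +
          ENNReal.ofReal (2 * (1/2)^k) := add_le_add (mul_le_mul_right h2 _) (hH'2 k)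
      _ ≤ ENNReal.ofReal (8 * (1/2)^k) + ENNReal.ofReal (2 * (1/2)^k) := add_le_add_left h3 _
      _ = ENNReal.ofReal (10 * (1/2)^k) := by
          rw [← ENNReal.ofReal_add (by positivity) (by positivity)]
          congr 1
          ring
  have hfin : ∫⁻ ω, ∑' k, A k ω ∂P ≠ ∞ := by
    rw [lintegral_tsum fun k => (hAm k).aemeasurable]
    refine ne_top_of_le_ne_top ?_ (ENNReal.tsum_le_tsum hAint)
    have hsum : Summable fun k : ℕ => 10 * (1/2:ℝ)^k :=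
      (summable_geometric_of_lt_one (by norm_num) (by norm_num)).mul_left _
    exact hsum.tsum_ofReal_ne_top
  have hae := ae_lt_top (Measurable.tsum hAm) hfin
  filter_upwards [hae, hB.cont] with ω hω hcont
  have hlim := ENNReal.tendsto_atTop_zero_of_tsum_ne_top hω.ne
  refine det2 (M := 2^(12*R.h)) (κ := 1/2^(21 + 2*R.f)) (path B ω) (continuous_path hcont).continuousOn C q ?_
  intro ε k0 hε
  have hε' : (0:ℝ≥0∞) < min (ENNReal.ofReal ε) 1 := lt_min (ENNReal.ofReal_pos.mpr hε) (by norm_num)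
  have hev := (hlim.eventually_lt_const hε').and (eventually_ge_atTop (max k0 k1))
  obtain ⟨k, hk, hkk⟩ := hev.exists
  have hkA1 := lt_of_lt_of_le hk (min_le_left _ _)
  have hkA2 := lt_of_lt_of_le hk (min_le_right _ _)
  have hkk1 : k1 ≤ k := le_trans (le_max_right _ _) hkk
  refine ⟨k, 2^((2*β+1)*k), le_trans (le_max_left _ _) hkk, by positivity, ?_, ?_⟩
  · intro u hu
    refine ⟨⌊u * 2^((2*β+1)*k)⌋₊, ?_, ?_⟩
    · rw [Finset.mem_range]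
      have h1 : u * 2^((2*β+1)*k) ≤ ((2^((2*β+1)*k) : ℕ) : ℝ) := by
        push_cast
        have h0 : (0:ℝ) < 2^((2*β+1)*k) := by positivity
        exact (mul_le_mul_of_nonneg_right hu.2 h0.le).trans (one_mul _).le
      exact Nat.lt_succ_of_le (Nat.floor_le_of_le h1)
    · by_contra hcon
      push Not at hcon
      have h1 := hH'3 k hkk1 ω hcont ⟨u, hu, by
        push_cast at hcon
        rw [hβ] at hcon ⊢
        exact hcon⟩
      have h2 : H' k ω ≤ A k ω := by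
        rw [hA]
        exact le_add_self
      exact absurd (lt_of_le_of_lt (h1.trans h2) hkA2) (lt_irrefl _)
  · have h1 : ENNReal.ofReal (∑ i ∈ Finset.range (2^((2*β+1)*k) + 1), (s^k * (τ / s)^(bc
        (path B ω) (Real.sqrt n) (2^R.β) (2^(12*R.h)) (1/2^(21 + 2*R.f)) (cc R) k ((i:ℝ) /
          ((2^((2*β+1)*k) : ℕ) : ℝ))))^(q:ℝ)) ≤ A k ω := by
      have hsp := C.hs
      rw [ENNReal.ofReal_sum_of_nonneg (fun i _ => by positivity), hA]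
      refine le_trans ?_ le_self_add
      rw [Finset.mul_sum]
      apply Finset.sum_le_sum
      intro i hi
      rw [Finset.mem_range] at hi
      rw [Real.mul_rpow (by positivity) (by positivity), ENNReal.ofReal_mul (by positivity)]
      apply mul_le_mul_right
      have h2 := hH3 k i (by omega) ω hcont
      refine le_trans (le_of_eq ?_) h2
      push_cast
      rw [hc0, ← ENNReal.ofReal_pow (by linarith)]
      congr 1
      rw [hcr]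
      exact pow_swap (τ / s) (by linarith) q _
    have h3 := lt_of_le_of_lt h1 hkA1
    exact ((ENNReal.ofReal_lt_ofReal_iff hε).mp h3).le

end Pool.Agent.H27.CD
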